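import Mathlib
import Pool.Agent.V1149.BT.Ext

set_option autoImplicit false

/-!
# List edge colourings of bipartite graphs with pendant edges

The theorem of Borodin, Kostochka and Woodall with an additional pendant edge at some vertices of
the first class: the pendant edges come first in the order of preference, and hence they only need
nonempty lists.
-/

namespace Pool.Agent.V1149.BT

open Finset

open Classical in
theorem pen {V : Type} [Fintype V] (E : Finset (V × V)) (L : V × V → Finset ℕ) (P : Finset V)
    (Lp : V → Finset ℕ)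
    (hL : ∀ e ∈ E, max (E.filter (fun f => f.1 = e.1)).card (E.filter (fun f => f.2 = e.2)).card
      + (if e.1 ∈ P then 1 else 0) ≤ (L e).card)
    (hP : ∀ x ∈ P, 0 < (Lp x).card) :
    ∃ (φ : V × V → ℕ) (π : V → ℕ), (∀ e ∈ E, φ e ∈ L e ∧
      ∀ f ∈ E, f ≠ e → (f.1 = e.1 ∨ f.2 = e.2) → φ f ≠ φ e) ∧ (∀ x ∈ P, π x ∈ Lp x) ∧
      ∀ e ∈ E, e.1 ∈ P → π e.1 ≠ φ e := by
  obtain ⟨c, hc1, hc2⟩ := Pool.Agent.TH559.LE.ranks E.card E (fun u => Finset.card_filter_le _ _)
    (fun u => Finset.card_filter_le _ _)
  have tr : ∀ R : V × V → Prop, ((univ : Finset {e // e ∈ E}).filter (fun f => R f.1)).card =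
      (E.filter R).card := by
    intro R
    refine Finset.card_bij (fun f _ => f.1) ?_ ?_ ?_
    · intro f hf
      rw [Finset.mem_filter] at hf ⊢
      exact ⟨f.2, hf.2⟩
    · intro a _ b _ h
      exact Subtype.ext h
    · intro f hf
      rw [Finset.mem_filter] at hf
      exact ⟨⟨f, hf.1⟩, Finset.mem_filter.2 ⟨Finset.mem_univ _, hf.2⟩, rfl⟩
  set B : ℕ := 1 + ∑ e ∈ E, c e with hB
  have hcB : ∀ e ∈ E, c e < B := by
    intro e he
    have := Finset.single_le_sum (f := c) (fun _ _ => Nat.zero_le _) he
    omega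
  let o : {e // e ∈ E} ⊕ {x // x ∈ P} → V ⊕ V :=
    Sum.elim (fun e => Sum.inl e.1.1) (fun x => Sum.inl x.1)
  let i : {e // e ∈ E} ⊕ {x // x ∈ P} → V ⊕ V :=
    Sum.elim (fun e => Sum.inl e.1.2) (fun x => Sum.inr x.1)
  let p : {e // e ∈ E} ⊕ {x // x ∈ P} → ℕ := Sum.elim (fun e => c e.1) (fun _ => B)
  let q : {e // e ∈ E} ⊕ {x // x ∈ P} → ℕ := Sum.elim (fun e => c e.1) (fun _ => 0)
  let LL : {e // e ∈ E} ⊕ {x // x ∈ P} → Finset ℕ := Sum.elim (fun e => L e.1) (fun x => Lp x.1)
  obtain ⟨φ, hφ⟩ := Pool.Agent.TH559.LE.galvin (C := ℕ) o i p q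
    (by
      rintro (e | x) (f | y) h1 h2
      · exact congrArg Sum.inl (Subtype.ext (hc1 e.1 e.2 f.1 f.2
          (Or.inl (Sum.inl.inj h1)) h2))
      · exfalso
        have h2' : c e.1 = B := h2
        have := hcB e.1 e.2
        omega
      · exfalso
        have h2' : B = c f.1 := h2
        have := hcB f.1 f.2
        omega
      · exact congrArg Sum.inr (Subtype.ext (Sum.inl.inj h1)))
    (by
      rintro (e | x) (f | y) h1 h2
      · exact congrArg Sum.inl (Subtype.ext (hc1 e.1 e.2 f.1 f.2
          (Or.inr (Sum.inl.inj h1)) h2))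
      · cases h1
      · cases h1
      · exact congrArg Sum.inr (Subtype.ext (Sum.inr.inj h1)))
    _ univ LL rfl (by
      rintro (e | x) _
      · rw [Finset.card_filter, Finset.card_filter, Fintype.sum_sum_type, Fintype.sum_sum_type,
          ← Finset.card_filter, ← Finset.card_filter, ← Finset.card_filter, ← Finset.card_filter]
        have a1 : ((univ : Finset {e // e ∈ E}).filter (fun f =>
            o (Sum.inl f) = o (Sum.inl e) ∧ p (Sum.inl e) < p (Sum.inl f))).card =
            (E.filter (fun f => f.1 = e.1.1 ∧ c e.1 < c f)).card := by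
          have h := tr (fun f => f.1 = e.1.1 ∧ c e.1 < c f)
          have h' : ((univ : Finset {e // e ∈ E}).filter (fun f =>
            o (Sum.inl f) = o (Sum.inl e) ∧ p (Sum.inl e) < p (Sum.inl f))).card =
            ((univ : Finset {e // e ∈ E}).filter (fun f => f.1.1 = e.1.1 ∧ c e.1 < c f.1)).card := by
            congr 1
            ext f
            rw [mem_filter, mem_filter]
            constructor
            · rintro ⟨h0, h1, h2⟩; exact ⟨h0, Sum.inl.inj h1, h2⟩
            · rintro ⟨h0, h1, h2⟩; exact ⟨h0, congrArg Sum.inl h1, h2⟩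
          rw [h']
          convert h
        have a2 : ((univ : Finset {x // x ∈ P}).filter (fun f =>
            o (Sum.inr f) = o (Sum.inl e) ∧ p (Sum.inl e) < p (Sum.inr f))).card ≤
            (if e.1.1 ∈ P then 1 else 0) := by
          split_ifs with h
          · rw [Finset.card_le_one]
            intro x hx y hy
            rw [Finset.mem_filter] at hx hy
            exact Subtype.ext ((Sum.inl.inj hx.2.1).trans (Sum.inl.inj hy.2.1).symm)
          · rw [Nat.le_zero, Finset.card_eq_zero, Finset.filter_eq_empty_iff]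
            intro x _ hx
            apply h
            rw [← Sum.inl.inj hx.1]
            exact x.2
        have a3 : ((univ : Finset {e // e ∈ E}).filter (fun f =>
            i (Sum.inl f) = i (Sum.inl e) ∧ q (Sum.inl f) < q (Sum.inl e))).card =
            (E.filter (fun f => f.2 = e.1.2 ∧ c f < c e.1)).card := by
          have h := tr (fun f => f.2 = e.1.2 ∧ c f < c e.1)
          have h' : ((univ : Finset {e // e ∈ E}).filter (fun f =>
            i (Sum.inl f) = i (Sum.inl e) ∧ q (Sum.inl f) < q (Sum.inl e))).card =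
            ((univ : Finset {e // e ∈ E}).filter (fun f => f.1.2 = e.1.2 ∧ c f.1 < c e.1)).card := by
            congr 1
            ext f
            rw [mem_filter, mem_filter]
            constructor
            · rintro ⟨h0, h1, h2⟩; exact ⟨h0, Sum.inl.inj h1, h2⟩
            · rintro ⟨h0, h1, h2⟩; exact ⟨h0, congrArg Sum.inl h1, h2⟩
          rw [h']
          convert h
        have a4 : ((univ : Finset {x // x ∈ P}).filter (fun f =>
            i (Sum.inr f) = i (Sum.inl e) ∧ q (Sum.inr f) < q (Sum.inl e))).card = 0 := by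
          rw [Finset.card_eq_zero, Finset.filter_eq_empty_iff]
          intro x _ hx
          cases hx.1
        have a5 := hc2 e.1 e.2
        have a6 := hL e.1 e.2
        show _ < (L e.1).card
        omega
      · have b1 : ((univ : Finset ({e // e ∈ E} ⊕ {x // x ∈ P})).filter (fun f =>
            o f = o (Sum.inr x) ∧ p (Sum.inr x) < p f)).card = 0 := by
          rw [Finset.card_eq_zero, Finset.filter_eq_empty_iff]
          rintro (f | y) _ hx
          · have h2 : B < c f.1 := hx.2
            have := hcB f.1 f.2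
            omega
          · exact lt_irrefl _ hx.2
        have b2 : ((univ : Finset ({e // e ∈ E} ⊕ {x // x ∈ P})).filter (fun f =>
            i f = i (Sum.inr x) ∧ q f < q (Sum.inr x))).card = 0 := by
          rw [Finset.card_eq_zero, Finset.filter_eq_empty_iff]
          rintro f _ hx
          exact absurd hx.2 (Nat.not_lt_zero _)
        rw [b1, b2]
        exact hP x.1 x.2)
  refine ⟨fun e => if h : e ∈ E then φ (Sum.inl ⟨e, h⟩) else 0,
    fun x => if h : x ∈ P then φ (Sum.inr ⟨x, h⟩) else 0, ?_, ?_, ?_⟩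
  · intro e he
    obtain ⟨h1, h2⟩ := hφ (Sum.inl ⟨e, he⟩) (Finset.mem_univ _)
    simp only [dif_pos he]
    refine ⟨h1, fun f hf hfe hor => ?_⟩
    simp only [dif_pos hf]
    intro heq
    have := h2 (Sum.inl ⟨f, hf⟩) (Finset.mem_univ _)
      (fun h => hfe (congrArg Subtype.val (Sum.inl.inj h))) heq
    rcases hor with h | h
    · exact this.1 (congrArg Sum.inl h)
    · exact this.2 (congrArg Sum.inl h)
  · intro x hx
    obtain ⟨h1, h2⟩ := hφ (Sum.inr ⟨x, hx⟩) (Finset.mem_univ _)
    simp only [dif_pos hx]
    exact h1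
  · intro e he hx heq
    simp only [dif_pos he, dif_pos hx] at heq
    obtain ⟨h1, h2⟩ := hφ (Sum.inl ⟨e, he⟩) (Finset.mem_univ _)
    exact (h2 (Sum.inr ⟨e.1, hx⟩) (Finset.mem_univ _) (fun h => by cases h) heq).1 rfl

end Pool.Agent.V1149.BT
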