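import Mathlib
import Pool.Agent.V1149.BT.Pen

set_option autoImplicit false

/-!
# Extending partial total colourings of bipartite graphs, second criterion

Uncoloured vertices of the first class are treated as pendant edges.
-/

namespace Pool.Agent.V1149.BT

open Finset

open Classical in
theorem ext2 {V : Type} [Fintype V] (G : SimpleGraph V) (side : V → Prop)
    (hb : ∀ a b, G.Adj a b → (side a ↔ ¬ side b)) (k : ℕ)
    (ψ : V → Fin k) (γ : V → Option (Fin k)) (Q : V → V → Fin k → Prop)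
    (hQ : ∀ x y t, Q x y t → ¬ side x ∧ G.Adj x y)
    (hQ1 : ∀ x y y' t t', Q x y t → Q x y' t' → (y = y' ↔ t = t'))
    (hQ2 : ∀ x x' y t t', Q x y t → Q x' y t' → x ≠ x' → t ≠ t')
    (hQψ : ∀ x y t, Q x y t → t ≠ ψ y)
    (hQγ : ∀ x y t, Q x y t → γ x ≠ some t)
    (hγ : ∀ x y, ¬ side x → G.Adj x y → γ x ≠ some (ψ y))
    (hL : ∀ x y, ¬ side x → G.Adj x y → (∀ t, ¬ Q x y t) → ∃ bad : Finset (Fin k), ψ y ∈ bad ∧
      (∀ g, γ x = some g → g ∈ bad) ∧ (∀ y' t, Q x y' t → t ∈ bad) ∧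
      (∀ x' t, Q x' y t → t ∈ bad) ∧
      bad.card + (univ.filter (fun y' => G.Adj x y' ∧ ∀ t, ¬ Q x y' t)).card +
        (if γ x = none then 1 else 0) ≤ k ∧
      bad.card + (univ.filter (fun x' => G.Adj x' y ∧ ∀ t, ¬ Q x' y t)).card +
        (if γ x = none then 1 else 0) ≤ k)
    (hS : ∀ x, ¬ side x → γ x = none → ∃ s : Fin k, (∀ y, G.Adj x y → s ≠ ψ y) ∧
      ∀ y t, Q x y t → s ≠ t) :
    ∃ (c : V → Fin k) (d : Sym2 V → Fin k), IsTotalColoring G c d ∧ (∀ y, side y → c y = ψ y) ∧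
      (∀ x g, ¬ side x → γ x = some g → c x = g) ∧ ∀ x y t, Q x y t → d s(x, y) = t := by
  set E : Finset (V × V) := univ.filter (fun e => ¬ side e.1 ∧ G.Adj e.1 e.2 ∧
    ∀ t, ¬ Q e.1 e.2 t) with hE
  set Lf : V × V → Finset (Fin k) := fun e => univ.filter (fun t => t ≠ ψ e.2 ∧ γ e.1 ≠ some t ∧
    (∀ y', ¬ Q e.1 y' t) ∧ ∀ x', ¬ Q x' e.2 t) with hLf
  set P : Finset V := univ.filter (fun x => ¬ side x ∧ γ x = none) with hP
  have hPm : ∀ x, x ∈ P ↔ ¬ side x ∧ γ x = none := by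
    intro x
    rw [hP, mem_filter]
    exact ⟨fun h => h.2, fun h => ⟨mem_univ _, h⟩⟩
  obtain ⟨φ, π, hφ, hπ, hπφ⟩ := pen E (fun e => (Lf e).map Fin.valEmbedding) P
    (fun x => (univ.filter (fun s : Fin k => (∀ y, G.Adj x y → s ≠ ψ y) ∧
      ∀ y t, Q x y t → s ≠ t)).map Fin.valEmbedding) (by
    rintro ⟨x, y⟩ he
    rw [hE, mem_filter] at he
    obtain ⟨-, hx, hxy, hnQ⟩ := he
    simp only at hx hxy hnQ
    obtain ⟨bad, h1, h2, h3, h4, h5, h6⟩ := hL x y hx hxy hnQ
    rw [card_map]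
    have hc : k - bad.card ≤ (Lf (x, y)).card := by
      have : (badᶜ : Finset (Fin k)).card = k - bad.card := by
        rw [card_compl, Fintype.card_fin]
      rw [← this]
      apply card_le_card
      intro t ht
      rw [mem_compl] at ht
      rw [hLf]
      simp only [mem_filter, mem_univ, true_and]
      refine ⟨fun h => ht (h ▸ h1), fun h => ht (h2 t h), fun y' h => ht (h3 y' t h),
        fun x' h => ht (h4 x' t h)⟩
    have e1 : (E.filter (fun f => f.1 = x)).card =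
        (univ.filter (fun y' => G.Adj x y' ∧ ∀ t, ¬ Q x y' t)).card := by
      refine Finset.card_bij (fun f _ => f.2) ?_ ?_ ?_
      · rintro ⟨a, b⟩ hf
        simp only [hE, mem_filter, mem_univ, true_and] at hf ⊢
        obtain ⟨⟨-, g2, g3⟩, g4⟩ := hf
        subst g4
        exact ⟨g2, g3⟩
      · rintro ⟨a, b⟩ hf ⟨a', b'⟩ hf' hbb
        simp only [hE, mem_filter, mem_univ, true_and] at hf hf' hbb
        rw [hf.2, hf'.2, hbb]
      · intro b hb'
        simp only [mem_filter, mem_univ, true_and] at hb'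
        exact ⟨(x, b), by simp only [hE, mem_filter, mem_univ, true_and]; exact ⟨⟨hx, hb'⟩, trivial⟩,
          rfl⟩
    have e2 : (E.filter (fun f => f.2 = y)).card =
        (univ.filter (fun x' => G.Adj x' y ∧ ∀ t, ¬ Q x' y t)).card := by
      refine Finset.card_bij (fun f _ => f.1) ?_ ?_ ?_
      · rintro ⟨a, b⟩ hf
        simp only [hE, mem_filter, mem_univ, true_and] at hf ⊢
        obtain ⟨⟨-, g2, g3⟩, g4⟩ := hf
        subst g4
        exact ⟨g2, g3⟩
      · rintro ⟨a, b⟩ hf ⟨a', b'⟩ hf' hbb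
        simp only [hE, mem_filter, mem_univ, true_and] at hf hf' hbb
        rw [hf.2, hf'.2, hbb]
      · intro a ha
        simp only [mem_filter, mem_univ, true_and] at ha
        refine ⟨(a, y), ?_, rfl⟩
        simp only [hE, mem_filter, mem_univ, true_and]
        have hy : side y := by
          by_contra hy
          exact hx ((hb x y hxy).2 hy)
        exact ⟨⟨fun h => (hb a y ha.1).1 h hy, ha⟩, trivial⟩
    have e3 : (if x ∈ P then 1 else 0) = (if γ x = none then 1 else 0) := by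
      by_cases h : γ x = none
      · rw [if_pos h, if_pos ((hPm x).2 ⟨hx, h⟩)]
      · rw [if_neg h, if_neg (fun h' => h ((hPm x).1 h').2)]
    simp only [] at e1 e2 ⊢
    rw [e1, e2, e3]
    omega)
    (by
      intro x hx
      obtain ⟨h1, h2⟩ := (hPm x).1 hx
      obtain ⟨s, hs1, hs2⟩ := hS x h1 h2
      rw [card_map, card_pos]
      exact ⟨s, by rw [mem_filter]; exact ⟨mem_univ _, hs1, hs2⟩⟩)
  have hmem : ∀ x y, ¬ side x → G.Adj x y → (∀ t, ¬ Q x y t) → (x, y) ∈ E := by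
    intro x y h1 h2 h3
    rw [hE, mem_filter]
    exact ⟨mem_univ _, h1, h2, h3⟩
  set W : V → V → Fin k → Prop := fun x y t =>
    Q x y t ∨ ((∀ t', ¬ Q x y t') ∧ (t : ℕ) = φ (x, y)) with hW
  have hWex : ∀ x y, ¬ side x → G.Adj x y → ∃ t, W x y t := by
    intro x y h1 h2
    by_cases h : ∃ t, Q x y t
    · obtain ⟨t, ht⟩ := h
      exact ⟨t, Or.inl ht⟩
    · push Not at h
      have := (hφ _ (hmem x y h1 h2 h)).1
      rw [mem_map] at this
      obtain ⟨t, -, ht⟩ := this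
      exact ⟨t, Or.inr ⟨h, ht⟩⟩
  have hWφ : ∀ (x y : V) (t : Fin k), ¬ side x → G.Adj x y → (∀ t', ¬ Q x y t') →
      (t : ℕ) = φ (x, y) → t ∈ Lf (x, y) := by
    intro x y t h1 h2 h h3
    have := (hφ _ (hmem x y h1 h2 h)).1
    rw [mem_map] at this
    obtain ⟨t', ht', ht⟩ := this
    have htt : t = t' := by
      apply Fin.ext
      rw [h3, ← ht]
      rfl
    rwa [htt]
  have hLfm : ∀ x y t, t ∈ Lf (x, y) ↔ t ≠ ψ y ∧ γ x ≠ some t ∧
      (∀ y', ¬ Q x y' t) ∧ ∀ x', ¬ Q x' y t := by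
    intro x y t
    rw [hLf]
    simp only [mem_filter, mem_univ, true_and]
  -- the colours of the edges
  set wc : V → V → Fin k := fun x y => if h : ∃ t, W x y t then h.choose else ψ x with hwc
  have hwcW : ∀ x y, ¬ side x → G.Adj x y → W x y (wc x y) := by
    intro x y h1 h2
    have h := hWex x y h1 h2
    rw [hwc]
    simp only [dif_pos h]
    exact h.choose_spec
  have hwcQ : ∀ x y t, Q x y t → wc x y = t := by
    intro x y t ht
    obtain ⟨h1, h2⟩ := hQ x y t ht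
    rcases hwcW x y h1 h2 with h | h
    · exact (hQ1 x y y _ _ h ht).1 rfl
    · exact absurd ht (h.1 t)
  have F1 : ∀ x y y', ¬ side x → G.Adj x y → G.Adj x y' → y ≠ y' → wc x y ≠ wc x y' := by
    intro x y y' h1 h2 h3 hne heq
    have w1 := hwcW x y h1 h2
    have w2 := hwcW x y' h1 h3
    rw [heq] at w1
    rcases w1 with w1 | w1 <;> rcases w2 with w2 | w2
    · exact hne ((hQ1 x y y' _ _ w1 w2).2 rfl)
    · exact ((hLfm x y' _).1 (hWφ x y' _ h1 h3 w2.1 w2.2)).2.2.1 y w1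
    · exact ((hLfm x y _).1 (hWφ x y _ h1 h2 w1.1 w1.2)).2.2.1 y' w2
    · exact (hφ _ (hmem x y h1 h2 w1.1)).2 (x, y') (hmem x y' h1 h3 w2.1)
        (fun h => hne (Prod.mk.inj h).2.symm) (Or.inl rfl) (w2.2.symm.trans w1.2)
  have F2 : ∀ x x' y, ¬ side x → ¬ side x' → G.Adj x y → G.Adj x' y → x ≠ x' →
      wc x y ≠ wc x' y := by
    intro x x' y h1 h1' h2 h3 hne heq
    have w1 := hwcW x y h1 h2
    have w2 := hwcW x' y h1' h3
    rw [heq] at w1
    rcases w1 with w1 | w1 <;> rcases w2 with w2 | w2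
    · exact hQ2 x x' y _ _ w1 w2 hne rfl
    · exact ((hLfm x' y _).1 (hWφ x' y _ h1' h3 w2.1 w2.2)).2.2.2 x w1
    · exact ((hLfm x y _).1 (hWφ x y _ h1 h2 w1.1 w1.2)).2.2.2 x' w2
    · exact (hφ _ (hmem x y h1 h2 w1.1)).2 (x', y) (hmem x' y h1' h3 w2.1)
        (fun h => hne (Prod.mk.inj h).1.symm) (Or.inr rfl) (w2.2.symm.trans w1.2)
  have F3 : ∀ x y, ¬ side x → G.Adj x y → wc x y ≠ ψ y := by
    intro x y h1 h2
    rcases hwcW x y h1 h2 with h | h
    · exact hQψ x y _ h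
    · exact ((hLfm x y _).1 (hWφ x y _ h1 h2 h.1 h.2)).1
  have F4 : ∀ x y, ¬ side x → G.Adj x y → γ x ≠ some (wc x y) := by
    intro x y h1 h2
    rcases hwcW x y h1 h2 with h | h
    · exact hQγ x y _ h
    · exact ((hLfm x y _).1 (hWφ x y _ h1 h2 h.1 h.2)).2.1
  -- the free colours
  have hfree : ∀ x, ¬ side x → γ x = none → ∃ t : Fin k, (∀ y, G.Adj x y → t ≠ ψ y) ∧
      ∀ y, G.Adj x y → t ≠ wc x y := by
    intro x h1 h2
    have hx := (hPm x).2 ⟨h1, h2⟩
    have h3 := hπ x hx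
    rw [mem_map] at h3
    obtain ⟨t, ht, htπ⟩ := h3
    rw [mem_filter] at ht
    refine ⟨t, ht.2.1, fun y hy h => ?_⟩
    rcases hwcW x y h1 hy with hq | hq
    · exact ht.2.2 y _ hq h
    · refine hπφ (x, y) (hmem x y h1 hy hq.1) hx ?_
      show π x = φ (x, y)
      rw [← hq.2, ← htπ, h]
      rfl
  set fc : V → Fin k := fun x => if h : ∃ t : Fin k, (∀ y, G.Adj x y → t ≠ ψ y) ∧
      ∀ y, G.Adj x y → t ≠ wc x y then h.choose else ψ x with hfc
  have hfcs : ∀ x, ¬ side x → γ x = none → (∀ y, G.Adj x y → fc x ≠ ψ y) ∧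
      ∀ y, G.Adj x y → fc x ≠ wc x y := by
    intro x h1 h2
    have h := hfree x h1 h2
    rw [hfc]
    simp only [dif_pos h]
    exact h.choose_spec
  set c : V → Fin k := fun v => if side v then ψ v else (γ v).getD (fc v) with hc
  have hc1 : ∀ y, side y → c y = ψ y := fun y hy => by rw [hc]; simp only [if_pos hy]
  have hc2 : ∀ x g, ¬ side x → γ x = some g → c x = g := by
    intro x g h1 h2
    rw [hc]; simp only [if_neg h1, h2, Option.getD_some]
  have hc3 : ∀ x, ¬ side x → γ x = none → c x = fc x := by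
    intro x h1 h2
    rw [hc]; simp only [if_neg h1, h2, Option.getD_none]
  have G1 : ∀ x y, ¬ side x → G.Adj x y → c x ≠ ψ y := by
    intro x y h1 h2
    rcases hg : γ x with _ | g
    · rw [hc3 x h1 hg]
      exact (hfcs x h1 hg).1 y h2
    · rw [hc2 x g h1 hg]
      intro h
      exact hγ x y h1 h2 (by rw [hg, h])
  have G2 : ∀ x y, ¬ side x → G.Adj x y → wc x y ≠ c x := by
    intro x y h1 h2
    rcases hg : γ x with _ | g
    · rw [hc3 x h1 hg]
      exact ((hfcs x h1 hg).2 y h2).symm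
    · rw [hc2 x g h1 hg]
      intro h
      exact F4 x y h1 h2 (by rw [hg, h])
  set d : Sym2 V → Fin k := fun e => if h : ∃ p : V × V, ¬ side p.1 ∧ G.Adj p.1 p.2 ∧
      e = s(p.1, p.2) then wc h.choose.1 h.choose.2 else ψ (Quot.out e).1 with hd
  have hd1 : ∀ x y, ¬ side x → G.Adj x y → d s(x, y) = wc x y := by
    intro x y h1 h2
    have h : ∃ p : V × V, ¬ side p.1 ∧ G.Adj p.1 p.2 ∧ s(x, y) = s(p.1, p.2) :=
      ⟨(x, y), h1, h2, rfl⟩
    rw [hd]
    simp only [dif_pos h]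
    obtain ⟨g1, g2, g3⟩ := h.choose_spec
    rw [Sym2.eq_iff] at g3
    rcases g3 with ⟨g3, g4⟩ | ⟨g3, g4⟩
    · rw [← g3, ← g4]
    · exfalso
      apply h1
      rw [hb x y h2, g4]
      exact g1
  have hd2 : ∀ x y, ¬ side x → G.Adj x y → d s(y, x) = wc x y := by
    intro x y h1 h2
    rw [Sym2.eq_swap]
    exact hd1 x y h1 h2
  have hs : ∀ x y, ¬ side x → G.Adj x y → side y := by
    intro x y h1 h2
    by_contra h
    exact h1 ((hb x y h2).2 h)
  have hs' : ∀ x y, side x → G.Adj x y → ¬ side y := fun x y h1 h2 => (hb x y h2).1 h1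
  refine ⟨c, d, ⟨?_, ?_, ?_⟩, hc1, hc2, ?_⟩
  · intro u v huv
    by_cases hu : side u
    · rw [hc1 u hu]
      exact (G1 v u (hs' u v hu huv) huv.symm).symm
    · rw [hc1 v (hs u v hu huv)]
      exact G1 u v hu huv
  · intro u v w huv huw hne
    by_cases hu : side u
    · have hv := hs' u v hu huv
      have hw := hs' u w hu huw
      rw [hd2 v u hv huv.symm, hd2 w u hw huw.symm]
      exact F2 v w u hv hw huv.symm huw.symm hne
    · rw [hd1 u v hu huv, hd1 u w hu huw]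
      exact F1 u v w hu huv huw hne
  · intro u v huv
    by_cases hu : side u
    · have hv := hs' u v hu huv
      rw [hd2 v u hv huv.symm, hc1 u hu]
      exact F3 v u hv huv.symm
    · rw [hd1 u v hu huv]
      exact G2 u v hu huv
  · intro x y t ht
    obtain ⟨h1, h2⟩ := hQ x y t ht
    rw [hd1 x y h1 h2]
    exact hwcQ x y t ht

end Pool.Agent.V1149.BT
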