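import Mathlib
import Pool.Agent.V1149.BT.ExtB

set_option autoImplicit false

/-!
# Extending partial total colourings of bipartite graphs with `Δ + d + 2` colours
-/

namespace Pool.Agent.V1149.BT

open Finset

open Classical in
theorem near {V : Type} [Fintype V] (G H : SimpleGraph V) (side : V → Prop)
    (hb : ∀ a b, G.Adj a b → (side a ↔ ¬ side b)) (k : ℕ)
    (hk : ∀ v w, (univ.filter (fun a => G.Adj v a)).card +
      (univ.filter (fun a => H.Adj w a)).card + 2 ≤ k)
    (hH : ∀ a b, H.Adj a b → G.Adj a b)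
    (S : Set V) (f0 : V → Fin k) (g0 : Sym2 V → Fin k)
    (p1 : ∀ a ∈ S, ∀ b ∈ S, G.Adj a b → f0 a ≠ f0 b)
    (p2 : ∀ a b b', H.Adj a b → H.Adj a b' → b ≠ b' → g0 s(a, b) ≠ g0 s(a, b'))
    (p3 : ∀ a ∈ S, ∀ b, H.Adj a b → g0 s(a, b) ≠ f0 a) :
    ∃ (c : V → Fin k) (d : Sym2 V → Fin k), IsTotalColoring G c d ∧
      (∀ a ∈ S, c a = f0 a) ∧ ∀ a b, H.Adj a b → d s(a, b) = g0 s(a, b) := by
  -- a colour which avoids the coloured neighbours and the coloured edges
  have hfree : ∀ (h : V → Fin k) (y : V), ∃ s : Fin k, (∀ x, G.Adj y x → s ≠ h x) ∧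
      ∀ x, H.Adj y x → s ≠ g0 s(y, x) := by
    intro h y
    set T : Finset (Fin k) := (univ.filter (fun a => G.Adj y a)).image h ∪
      (univ.filter (fun a => H.Adj y a)).image (fun a => g0 s(y, a)) with hT
    have h1 : T.card < k := by
      have a1 := card_union_le ((univ.filter (fun a => G.Adj y a)).image h)
        ((univ.filter (fun a => H.Adj y a)).image (fun a => g0 s(y, a)))
      have a2 := card_image_le (s := univ.filter (fun a => G.Adj y a)) (f := h)
      have a3 := card_image_le (s := univ.filter (fun a => H.Adj y a))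
        (f := fun a => g0 s(y, a))
      have a4 := hk y y
      rw [hT]
      omega
    have : ∃ t : Fin k, t ∉ T := by
      by_contra hcon
      push Not at hcon
      have : (univ : Finset (Fin k)) ⊆ T := fun t _ => hcon t
      have := card_le_card this
      rw [card_univ, Fintype.card_fin] at this
      omega
    obtain ⟨t, ht⟩ := this
    rw [hT, mem_union, not_or, mem_image, mem_image] at ht
    refine ⟨t, fun x hx h' => ht.1 ⟨x, by rw [mem_filter]; exact ⟨mem_univ _, hx⟩, h'.symm⟩,
      fun x hx h' => ht.2 ⟨x, by rw [mem_filter]; exact ⟨mem_univ _, hx⟩, h'.symm⟩⟩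
  choose fr hfr1 hfr2 using hfree
  set ψ : V → Fin k := fun y => if y ∈ S then f0 y else fr f0 y with hψ
  set γ : V → Option (Fin k) := fun x => if x ∈ S then some (f0 x) else none with hγ
  have hψ1 : ∀ y, y ∈ S → ψ y = f0 y := fun y hy => by rw [hψ]; simp only [if_pos hy]
  have hψ2 : ∀ y, y ∉ S → ψ y = fr f0 y := fun y hy => by rw [hψ]; simp only [if_neg hy]
  have hγ1 : ∀ x, x ∈ S → γ x = some (f0 x) := fun x hx => by rw [hγ]; simp only [if_pos hx]
  have hγ2 : ∀ x, x ∉ S → γ x = none := fun x hx => by rw [hγ]; simp only [if_neg hx]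
  have hγ3 : ∀ x g, γ x = some g → x ∈ S ∧ f0 x = g := by
    intro x g h
    by_cases hx : x ∈ S
    · rw [hγ1 x hx, Option.some.injEq] at h
      exact ⟨hx, h⟩
    · rw [hγ2 x hx] at h
      cases h
  set Q : V → V → Fin k → Prop := fun x y t => ¬ side x ∧ H.Adj x y ∧ t = g0 s(x, y) with hQ
  obtain ⟨c, d, h1, h2, h3, h4⟩ := ext2 G side hb k ψ γ Q
    (fun x y t h => ⟨h.1, hH x y h.2.1⟩)
    (by
      rintro x y y' t t' ⟨q1, q2, q3⟩ ⟨r1, r2, r3⟩
      constructor
      · intro h; rw [q3, r3, h]
      · intro h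
        by_contra hne
        exact p2 x y y' q2 r2 hne (by rw [← q3, ← r3, h]))
    (by
      rintro x x' y t t' ⟨q1, q2, q3⟩ ⟨r1, r2, r3⟩ hne h
      refine p2 y x x' q2.symm r2.symm hne ?_
      rw [Sym2.eq_swap (a := y) (b := x), Sym2.eq_swap (a := y) (b := x'), ← q3, ← r3, h])
    (by
      rintro x y t ⟨q1, q2, q3⟩ h
      by_cases hy : y ∈ S
      · refine p3 y hy x q2.symm ?_
        rw [Sym2.eq_swap, ← q3, h, hψ1 y hy]
      · refine hfr2 f0 y x q2.symm ?_
        rw [Sym2.eq_swap, ← q3, h, hψ2 y hy])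
    (by
      rintro x y t ⟨q1, q2, q3⟩ h
      obtain ⟨h1, h2⟩ := hγ3 x t h
      exact p3 x h1 y q2 (by rw [← q3, h2]))
    (by
      intro x y hx hxy h
      obtain ⟨h1, h2⟩ := hγ3 x _ h
      by_cases hy : y ∈ S
      · exact p1 x h1 y hy hxy (by rw [h2, hψ1 y hy])
      · exact hfr1 f0 y x hxy.symm (by rw [h2, hψ2 y hy]))
    (by
      intro x y hx hxy hnQ
      set A : Finset (Fin k) := (univ.filter (fun a => H.Adj x a)).image (fun a => g0 s(x, a))
        with hA
      set B : Finset (Fin k) := (univ.filter (fun a => H.Adj y a)).image (fun a => g0 s(y, a))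
        with hB
      have cA : A.card ≤ (univ.filter (fun a => H.Adj x a)).card := card_image_le
      have cB : B.card ≤ (univ.filter (fun a => H.Adj y a)).card := card_image_le
      have hys : side y := by
        by_contra hcon
        exact hx ((hb x y hxy).2 hcon)
      have dx : (univ.filter (fun y' => G.Adj x y' ∧ ∀ t, ¬ Q x y' t)).card +
          (univ.filter (fun a => H.Adj x a)).card ≤ (univ.filter (fun a => G.Adj x a)).card := by
        rw [← card_union_of_disjoint]
        · apply card_le_card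
          intro a ha
          rw [mem_union, mem_filter, mem_filter] at ha
          rw [mem_filter]
          rcases ha with ha | ha
          · exact ⟨mem_univ _, ha.2.1⟩
          · exact ⟨mem_univ _, hH _ _ ha.2⟩
        · rw [disjoint_left]
          intro a ha ha'
          rw [mem_filter] at ha ha'
          exact ha.2.2 _ ⟨hx, ha'.2, rfl⟩
      have dy : (univ.filter (fun x' => G.Adj x' y ∧ ∀ t, ¬ Q x' y t)).card +
          (univ.filter (fun a => H.Adj y a)).card ≤ (univ.filter (fun a => G.Adj y a)).card := by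
        rw [← card_union_of_disjoint]
        · apply card_le_card
          intro a ha
          rw [mem_union, mem_filter, mem_filter] at ha
          rw [mem_filter]
          rcases ha with ha | ha
          · exact ⟨mem_univ _, ha.2.1.symm⟩
          · exact ⟨mem_univ _, hH _ _ ha.2⟩
        · rw [disjoint_left]
          intro a ha ha'
          rw [mem_filter] at ha ha'
          exact ha.2.2 _ ⟨fun h => (hb _ _ ha.2.1).1 h hys, ha'.2.symm, rfl⟩
      have mA : ∀ y' t, Q x y' t → t ∈ A := by
        rintro y' t ⟨q1, q2, q3⟩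
        rw [hA, mem_image]
        exact ⟨y', by rw [mem_filter]; exact ⟨mem_univ _, q2⟩, q3.symm⟩
      have mB : ∀ x' t, Q x' y t → t ∈ B := by
        rintro x' t ⟨q1, q2, q3⟩
        rw [hB, mem_image]
        exact ⟨x', by rw [mem_filter]; exact ⟨mem_univ _, q2.symm⟩, by rw [Sym2.eq_swap, q3]⟩
      have k1 := hk x y
      have k2 := hk y x
      by_cases hxS : x ∈ S
      · have hc : ({ψ y, f0 x} ∪ (A ∪ B) : Finset (Fin k)).card ≤ 2 + (A.card + B.card) :=
          (card_union_le _ _).trans (add_le_add card_le_two (card_union_le _ _))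
        have e0 : (if γ x = none then 1 else 0) = 0 := by
          rw [if_neg]; rw [hγ1 x hxS]; exact Option.some_ne_none _
        have f1 : ({ψ y, f0 x} ∪ (A ∪ B) : Finset (Fin k)).card +
          (univ.filter (fun y' => G.Adj x y' ∧ ∀ t, ¬ Q x y' t)).card +
          (if γ x = none then 1 else 0) ≤ k := by omega
        have f2 : ({ψ y, f0 x} ∪ (A ∪ B) : Finset (Fin k)).card +
          (univ.filter (fun x' => G.Adj x' y ∧ ∀ t, ¬ Q x' y t)).card +
          (if γ x = none then 1 else 0) ≤ k := by omega
        refine ⟨{ψ y, f0 x} ∪ (A ∪ B), by simp, ?_, ?_, ?_, by convert f1, by convert f2⟩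
        · intro g hg
          rw [(hγ3 x g hg).2.symm]; simp
        · intro y' t hq
          exact mem_union_right _ (mem_union_left _ (mA y' t hq))
        · intro x' t hq
          exact mem_union_right _ (mem_union_right _ (mB x' t hq))
      · have hc : ({ψ y} ∪ (A ∪ B) : Finset (Fin k)).card ≤ 1 + (A.card + B.card) :=
          (card_union_le _ _).trans (add_le_add (card_singleton _).le (card_union_le _ _))
        have e0 : (if γ x = none then 1 else 0) = 1 := by
          rw [if_pos (hγ2 x hxS)]
        have f1 : ({ψ y} ∪ (A ∪ B) : Finset (Fin k)).card +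
          (univ.filter (fun y' => G.Adj x y' ∧ ∀ t, ¬ Q x y' t)).card +
          (if γ x = none then 1 else 0) ≤ k := by omega
        have f2 : ({ψ y} ∪ (A ∪ B) : Finset (Fin k)).card +
          (univ.filter (fun x' => G.Adj x' y ∧ ∀ t, ¬ Q x' y t)).card +
          (if γ x = none then 1 else 0) ≤ k := by omega
        refine ⟨{ψ y} ∪ (A ∪ B), by simp, ?_, ?_, ?_, by convert f1, by convert f2⟩
        · intro g hg
          exact absurd (hγ3 x g hg).1 hxS
        · intro y' t hq
          exact mem_union_right _ (mem_union_left _ (mA y' t hq))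
        · intro x' t hq
          exact mem_union_right _ (mem_union_right _ (mB x' t hq)))
    (by
      intro x hx hnone
      refine ⟨fr ψ x, hfr1 ψ x, ?_⟩
      rintro y t ⟨q1, q2, q3⟩
      rw [q3]
      exact hfr2 ψ x y q2)
  refine ⟨c, d, h1, ?_, ?_⟩
  · intro a ha
    by_cases hs : side a
    · rw [h2 a hs, hψ1 a ha]
    · exact h3 a _ hs (hγ1 a ha)
  · intro a b hab
    by_cases hs : side a
    · have hbs : ¬ side b := (hb _ _ (hH _ _ hab)).1 hs
      have := h4 b a (g0 s(b, a)) ⟨hbs, hab.symm, rfl⟩
      rw [Sym2.eq_swap, this]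
    · exact h4 a b _ ⟨hs, hab, rfl⟩

end Pool.Agent.V1149.BT
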