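import Mathlib
import Pool.Agent.V1149.BT.Ext
import Pool.Agent.V1149.SP.Fin

set_option autoImplicit false

/-!
# Distance-3 matchings in bipartite graphs without conflicts at vertices of full degree
-/

namespace Pool.Agent.V1149.BT

open Finset

open Classical in
theorem ind {V : Type} [Fintype V] (G H : SimpleGraph V) (side : V → Prop)
    (hb : ∀ a b, G.Adj a b → (side a ↔ ¬ side b)) (k : ℕ)
    (hk : ∀ v, (univ.filter (fun w => G.Adj v w)).card + 2 ≤ k)
    (hH : ∀ a b, H.Adj a b → G.Adj a b)
    (hm : ∀ a b c, H.Adj a b → H.Adj a c → b = c)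
    (d1 : ∀ a ∈ H.support, ∀ b ∈ H.support, G.Adj a b → H.Adj a b)
    (d2 : ∀ a ∈ H.support, ∀ b ∈ H.support, ∀ w, G.Adj w a → G.Adj w b → a ≠ b → H.Adj a b)
    (f0 : V → Fin k) (g0 : Sym2 V → Fin k) (hT : IsTotalColoring H f0 g0)
    (hc : ∀ x y a a' b b', G.Adj x y → (univ.filter (fun w => G.Adj x w)).card + 2 = k →
      (univ.filter (fun w => G.Adj y w)).card + 2 = k → x ∉ H.support → y ∉ H.support →
      H.Adj a a' → H.Adj b b' → G.Adj x a → G.Adj y b → g0 s(a, a') ≠ g0 s(b, b')) :
    ∃ (c : V → Fin k) (d : Sym2 V → Fin k), IsTotalColoring G c d ∧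
      (∀ a ∈ H.support, c a = f0 a) ∧ ∀ a b, H.Adj a b → d s(a, b) = g0 s(a, b) := by
  -- neighbours of a component of full degree get the colour of its edge
  set Fn : V → Prop := fun z => z ∉ H.support ∧ (univ.filter (fun w => G.Adj z w)).card + 2 = k ∧
    ∃ p : V × V, H.Adj p.1 p.2 ∧ G.Adj z p.1 with hFn
  set f1 : V → Fin k := fun z => if h : z ∉ H.support ∧ ∃ p : V × V, H.Adj p.1 p.2 ∧ G.Adj z p.1
    then g0 s(h.2.choose.1, h.2.choose.2) else f0 z with hf1
  have f1s : ∀ z, z ∈ H.support → f1 z = f0 z := by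
    intro z hz
    rw [hf1]
    simp only
    rw [dif_neg (fun h => h.1 hz)]
  -- all components adjacent to a vertex outside have the same colour
  have uniq : ∀ z a a' b b', H.Adj a a' → H.Adj b b' → G.Adj z a → G.Adj z b →
      s(a, a') = s(b, b') := by
    intro z a a' b b' h1 h2 h3 h4
    by_cases hab : a = b
    · subst hab
      rw [hm a a' b' h1 h2]
    · have h5 := d2 a ⟨a', h1⟩ b ⟨b', h2⟩ z h3 h4 hab
      have e1 := hm a a' b h1 h5
      have e2 := hm b b' a h2 h5.symm
      rw [e1, e2, Sym2.eq_swap]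
  have f1n : ∀ z a a', z ∉ H.support → H.Adj a a' → G.Adj z a → f1 z = g0 s(a, a') := by
    intro z a a' hz h1 h2
    have h : z ∉ H.support ∧ ∃ p : V × V, H.Adj p.1 p.2 ∧ G.Adj z p.1 := ⟨hz, (a, a'), h1, h2⟩
    rw [hf1]
    simp only
    rw [dif_pos h]
    obtain ⟨h3, h4⟩ := h.2.choose_spec
    exact congrArg g0 (uniq z _ _ _ _ h3 h1 h4 h2)
  obtain ⟨c, c1, c2, c3⟩ := SP.greedy G H k (fun v => by
      have h1 := hk v
      have h2 : V1126.TC.dg H v ≤ 1 := by
        unfold V1126.TC.dg
        rw [card_le_one]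
        intro a ha b hb'
        rw [mem_filter] at ha hb'
        exact hm v a b ha.2 hb'.2
      have h3 : V1126.TC.dg G v = (univ.filter (fun w => G.Adj v w)).card := by
        unfold V1126.TC.dg; congr
      omega)
    {z | z ∈ H.support ∨ Fn z} f1 g0
    (by
      rintro a (ha | ha) b (hb' | hb') hab
      · rw [f1s a ha, f1s b hb']
        exact hT.vert a b (d1 a ha b hb' hab)
      · obtain ⟨n1, n2, p, n3, n4⟩ := hb'
        obtain ⟨a', ha'⟩ := ha
        rw [f1s a ⟨a', ha'⟩, f1n b a a' n1 ha' hab.symm]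
        exact (hT.inc a a' ha').symm
      · obtain ⟨n1, n2, p, n3, n4⟩ := ha
        obtain ⟨b', hb''⟩ := hb'
        rw [f1s b ⟨b', hb''⟩, f1n a b b' n1 hb'' hab]
        exact hT.inc b b' hb''
      · obtain ⟨n1, n2, p, n3, n4⟩ := ha
        obtain ⟨n1', n2', p', n3', n4'⟩ := hb'
        rw [f1n a p.1 p.2 n1 n3 n4, f1n b p'.1 p'.2 n1' n3' n4']
        exact hc a b _ _ _ _ hab n2 n2' n1 n1' n3 n3' n4 n4')
    (by
      rintro a (ha | ha) b hab
      · rw [f1s a ha]
        exact hT.inc a b hab
      · exact absurd ⟨b, hab⟩ ha.1)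
  have cs : ∀ z, z ∈ H.support → c z = f0 z := fun z hz => (c1 z (Or.inl hz)).trans (f1s z hz)
  have cn : ∀ z a a', z ∉ H.support → (univ.filter (fun w => G.Adj z w)).card + 2 = k →
      H.Adj a a' → G.Adj z a → c z = g0 s(a, a') := fun z a a' h1 h2 h3 h4 =>
    (c1 z (Or.inr ⟨h1, h2, (a, a'), h3, h4⟩)).trans (f1n z a a' h1 h3 h4)
  set Q : V → V → Fin k → Prop := fun x y t => ¬ side x ∧ H.Adj x y ∧ t = g0 s(x, y) with hQ
  obtain ⟨c', d, h1, h2, h3, h4⟩ := ext G side hb k c (fun x => some (c x)) Q
    (fun x y t h => ⟨h.1, hH x y h.2.1⟩)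
    (by
      rintro x y y' t t' ⟨q1, q2, q3⟩ ⟨r1, r2, r3⟩
      have : y = y' := hm x y y' q2 r2
      subst this
      exact ⟨fun _ => by rw [q3, r3], fun _ => rfl⟩)
    (by
      rintro x x' y t t' ⟨q1, q2, q3⟩ ⟨r1, r2, r3⟩ hne
      exact absurd (hm y x x' q2.symm r2.symm) hne)
    (by
      rintro x y t ⟨q1, q2, q3⟩ h
      apply c3 y x q2.symm
      rw [Sym2.eq_swap, ← q3, h])
    (by
      rintro x y t ⟨q1, q2, q3⟩ h
      rw [Option.some.injEq] at h
      exact c3 x y q2 (by rw [← q3, h]))
    (by
      intro x y hx hxy h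
      rw [Option.some.injEq] at h
      exact c2 x y hxy h)
    (by
      intro x y hx hxy hnQ
      have hys : side y := by
        by_contra hcon
        exact hx ((hb x y hxy).2 hcon)
      have hnH : ¬ H.Adj x y := fun h => hnQ _ ⟨hx, h, rfl⟩
      have kx := hk x
      have ky := hk y
      have key : ∀ (A B : Finset V), (∀ a, a ∈ A → G.Adj x a ∧ ∀ t, ¬ Q x a t) →
          (∀ a, a ∈ B → G.Adj a y ∧ ∀ t, ¬ Q a y t) → ∃ bad : Finset (Fin k), c y ∈ bad ∧
          (∀ g, some (c x) = some g → g ∈ bad) ∧ (∀ y' t, Q x y' t → t ∈ bad) ∧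
          (∀ x' t, Q x' y t → t ∈ bad) ∧ bad.card + A.card ≤ k ∧ bad.card + B.card ≤ k := by
        intro A B hA hB
        have cA : A.card ≤ (univ.filter (fun w => G.Adj x w)).card :=
          card_le_card fun a ha => by rw [mem_filter]; exact ⟨mem_univ _, (hA a ha).1⟩
        have cB : B.card ≤ (univ.filter (fun w => G.Adj y w)).card :=
          card_le_card fun a ha => by rw [mem_filter]; exact ⟨mem_univ _, (hB a ha).1.symm⟩
        by_cases hxs : x ∈ H.support
        · obtain ⟨x', hx'⟩ := hxs
          have hyn : y ∉ H.support := fun h => hnH (d1 x ⟨x', hx'⟩ y h hxy)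
          have cA' : A.card + 1 ≤ (univ.filter (fun w => G.Adj x w)).card := by
            apply card_lt_card
            rw [ssubset_iff_of_subset (fun a ha => by
              rw [mem_filter]; exact ⟨mem_univ _, (hA a ha).1⟩)]
            exact ⟨x', by rw [mem_filter]; exact ⟨mem_univ _, hH _ _ hx'⟩,
              fun h => (hA x' h).2 _ ⟨hx, hx', rfl⟩⟩
          by_cases hf : (univ.filter (fun w => G.Adj y w)).card + 2 = k
          · have hcy := cn y x x' hyn hf hx' hxy.symm
            have h2 : ({c x, g0 s(x, x')} : Finset (Fin k)).card ≤ 2 := card_le_two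
            refine ⟨{c x, g0 s(x, x')}, by rw [hcy]; simp, ?_, ?_, ?_, by omega, by omega⟩
            · intro g hg
              rw [Option.some.injEq] at hg
              rw [← hg]; simp
            · rintro y' t ⟨q1, q2, q3⟩
              rw [q3, hm x y' x' q2 hx']; simp
            · rintro z t ⟨q1, q2, q3⟩
              exact absurd ⟨z, q2.symm⟩ hyn
          · have h3 : ({c y, c x, g0 s(x, x')} : Finset (Fin k)).card ≤ 3 := card_le_three
            refine ⟨{c y, c x, g0 s(x, x')}, by simp, ?_, ?_, ?_, by omega, by omega⟩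
            · intro g hg
              rw [Option.some.injEq] at hg
              rw [← hg]; simp
            · rintro y' t ⟨q1, q2, q3⟩
              rw [q3, hm x y' x' q2 hx']; simp
            · rintro z t ⟨q1, q2, q3⟩
              exact absurd ⟨z, q2.symm⟩ hyn
        · by_cases hysu : y ∈ H.support
          · obtain ⟨y', hy'⟩ := hysu
            have hy's : ¬ side y' := fun h => (hb y y' (hH _ _ hy')).1 hys h
            have cB' : B.card + 1 ≤ (univ.filter (fun w => G.Adj y w)).card := by
              apply card_lt_card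
              rw [ssubset_iff_of_subset (fun a ha => by
                rw [mem_filter]; exact ⟨mem_univ _, (hB a ha).1.symm⟩)]
              exact ⟨y', by rw [mem_filter]; exact ⟨mem_univ _, hH _ _ hy'⟩,
                fun h => (hB y' h).2 _ ⟨hy's, hy'.symm, rfl⟩⟩
            by_cases hf : (univ.filter (fun w => G.Adj x w)).card + 2 = k
            · have hcx := cn x y y' hxs hf hy' hxy
              have h2 : ({c y, g0 s(y, y')} : Finset (Fin k)).card ≤ 2 := card_le_two
              refine ⟨{c y, g0 s(y, y')}, by simp, ?_, ?_, ?_, by omega, by omega⟩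
              · intro g hg
                rw [Option.some.injEq] at hg
                rw [← hg, hcx]; simp
              · rintro z t ⟨q1, q2, q3⟩
                exact absurd ⟨z, q2⟩ hxs
              · rintro z t ⟨q1, q2, q3⟩
                rw [q3, Sym2.eq_swap, hm y z y' q2.symm hy']; simp
            · have h3 : ({c y, c x, g0 s(y, y')} : Finset (Fin k)).card ≤ 3 := card_le_three
              refine ⟨{c y, c x, g0 s(y, y')}, by simp, ?_, ?_, ?_, by omega, by omega⟩
              · intro g hg
                rw [Option.some.injEq] at hg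
                rw [← hg]; simp
              · rintro z t ⟨q1, q2, q3⟩
                exact absurd ⟨z, q2⟩ hxs
              · rintro z t ⟨q1, q2, q3⟩
                rw [q3, Sym2.eq_swap, hm y z y' q2.symm hy']; simp
          · have h2 : ({c y, c x} : Finset (Fin k)).card ≤ 2 := card_le_two
            refine ⟨{c y, c x}, by simp, ?_, ?_, ?_, by omega, by omega⟩
            · intro g hg
              rw [Option.some.injEq] at hg
              rw [← hg]; simp
            · rintro z t ⟨q1, q2, q3⟩
              exact absurd ⟨z, q2⟩ hxs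
            · rintro z t ⟨q1, q2, q3⟩
              exact absurd ⟨z, q2.symm⟩ hysu
      exact key _ _ (fun a ha => by simp only [mem_filter, mem_univ, true_and] at ha; exact ha)
        (fun a ha => by simp only [mem_filter, mem_univ, true_and] at ha; exact ha))
    (by
      intro x hx hnone
      cases hnone)
  refine ⟨c', d, h1, ?_, ?_⟩
  · intro a ha
    by_cases hs : side a
    · rw [h2 a hs, cs a ha]
    · rw [h3 a _ hs rfl, cs a ha]
  · intro a b hab
    by_cases hs : side a
    · have hbs : ¬ side b := (hb _ _ (hH _ _ hab)).1 hs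
      have := h4 b a (g0 s(b, a)) ⟨hbs, hab.symm, rfl⟩
      rw [Sym2.eq_swap, this]
    · exact h4 a b _ ⟨hs, hab, rfl⟩

end Pool.Agent.V1149.BT
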