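import Mathlib
import Pool.Agent.V1149.BT.Ext

set_option autoImplicit false

/-!
# Total colourings of bipartite graphs extending a precoloured distance-7 matching
-/

namespace Pool.Agent.V1149.BT

open Finset

open Classical in
/-- the number of neighbours -/
noncomputable def nb {V : Type} [Fintype V] (G : SimpleGraph V) (z : V) : ℕ :=
  (univ.filter (fun w => G.Adj z w)).card

/-- The data. -/
structure Dat (V : Type) [Fintype V] where
  G : SimpleGraph V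
  H : SimpleGraph V
  side : V → Prop
  k : ℕ
  f0 : V → Fin k
  g0 : Sym2 V → Fin k
  β : Fin k
  m : V → V → V → V
  hb : ∀ a b, G.Adj a b → (side a ↔ ¬ side b)
  hH : ∀ a b, H.Adj a b → G.Adj a b
  hm : ∀ a b c, H.Adj a b → H.Adj a c → b = c
  hd : ∀ a ∈ H.support, ∀ b ∈ H.support, a ≠ b → ¬ H.Adj a b → 7 ≤ G.edist a b
  hT : IsTotalColoring H f0 g0
  hk : ∀ v, nb G v + 2 ≤ k
  hm1 : ∀ a a' z, G.Adj a a' → G.Adj a z → z ≠ a' → nb G z + 2 = k →
    G.Adj z (m a a' z) ∧ m a a' z ≠ a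
  hm2 : ∀ a a' z z', G.Adj a a' → G.Adj a z → z ≠ a' → nb G z + 2 = k → G.Adj a z' → z' ≠ a' →
    nb G z' + 2 = k → m a a' z = m a a' z' → z = z'

namespace Dat

variable {V : Type} [Fintype V] (D : Dat V)

/-- a component -/
def Cm (v u : V) : Prop := D.H.Adj v u ∧ ¬ D.side v

/-- near -/
def Nr (x v u : V) : Prop := D.G.edist x v ≤ 3 ∨ D.G.edist x u ≤ 3

theorem e1 {a b : V} (h : D.G.Adj a b) : D.G.edist a b ≤ 1 := by
  rw [SimpleGraph.edist_eq_one_iff_adj.2 h]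

theorem e2 {a b c : V} (h : D.G.Adj a b) (h' : D.G.Adj b c) : D.G.edist a c ≤ 2 := by
  refine (SimpleGraph.edist_triangle (v := b)).trans ?_
  refine (add_le_add (D.e1 h) (D.e1 h')).trans ?_
  norm_num

theorem e3 {a b c d : V} (h : D.G.Adj a b) (h' : D.G.Adj b c) (h'' : D.G.Adj c d) :
    D.G.edist a d ≤ 3 := by
  refine (SimpleGraph.edist_triangle (v := c)).trans ?_
  refine (add_le_add (D.e2 h h') (D.e1 h'')).trans ?_
  norm_num

theorem e03 (a : V) : D.G.edist a a ≤ 3 := by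
  rw [SimpleGraph.edist_self]; exact zero_le

theorem e13 {a b : V} (h : D.G.Adj a b) : D.G.edist a b ≤ 3 :=
  (D.e1 h).trans (by norm_num)

theorem e23 {a b c : V} (h : D.G.Adj a b) (h' : D.G.Adj b c) : D.G.edist a c ≤ 3 :=
  (D.e2 h h').trans (by norm_num)

theorem Cm.side_u {v u : V} (h : D.Cm v u) : D.side u := by
  by_contra hu
  exact h.2 ((D.hb v u (D.hH _ _ h.1)).2 hu)

theorem Cm.adj {v u : V} (h : D.Cm v u) : D.G.Adj v u := D.hH _ _ h.1

theorem close {s s' w : V} (h : D.G.edist w s ≤ 3) (h' : D.G.edist w s' ≤ 3) (hs : s ∈ D.H.support)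
    (hs' : s' ∈ D.H.support) : s = s' ∨ D.H.Adj s s' := by
  by_contra hcon
  rw [not_or] at hcon
  have h7 := D.hd s hs s' hs' hcon.1 hcon.2
  have : D.G.edist s s' ≤ 6 := by
    refine (SimpleGraph.edist_triangle (v := w)).trans ?_
    rw [SimpleGraph.edist_comm]
    refine (add_le_add h h').trans ?_
    norm_num
  have h8 := h7.trans this
  norm_num at h8

theorem uniq {x v u v' u' : V} (h : D.Cm v u) (h' : D.Cm v' u') (hx : D.Nr x v u)
    (hx' : D.Nr x v' u') : v = v' ∧ u = u' := by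
  have sv : v ∈ D.H.support := ⟨u, h.1⟩
  have su : u ∈ D.H.support := ⟨v, h.1.symm⟩
  have sv' : v' ∈ D.H.support := ⟨u', h'.1⟩
  have su' : u' ∈ D.H.support := ⟨v', h'.1.symm⟩
  have hu := Cm.side_u D h
  have hu' := Cm.side_u D h'
  have k1 : v = v' → v = v' ∧ u = u' := by
    intro e; subst e
    exact ⟨rfl, D.hm _ _ _ h.1 h'.1⟩
  have k2 : u = u' → v = v' ∧ u = u' := by
    intro e; subst e
    exact ⟨D.hm _ _ _ h.1.symm h'.1.symm, rfl⟩
  rcases hx with hx | hx <;> rcases hx' with hx' | hx'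
  · rcases D.close hx hx' sv sv' with e | e
    · exact k1 e
    · exfalso
      exact h.2 ((D.hb v v' (D.hH _ _ e)).2 h'.2)
  · rcases D.close hx hx' sv su' with e | e
    · exfalso; exact h.2 (e ▸ hu')
    · exact k2 (D.hm _ _ _ h.1 e)
  · rcases D.close hx hx' su sv' with e | e
    · exfalso; exact h'.2 (e ▸ hu)
    · exact k1 (D.hm _ _ _ h.1.symm e)
  · rcases D.close hx hx' su su' with e | e
    · exact k2 e
    · exfalso
      exact (D.hb u u' (D.hH _ _ e)).1 hu hu'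

/-- the special vertices of the second class -/
def SpY (y v u : V) : Prop := D.Cm v u ∧ D.f0 u ≠ D.β ∧ y ≠ u ∧ ∃ b, D.G.Adj u b ∧ D.G.Adj b y

theorem SpY.side {y v u : V} (h : D.SpY y v u) : D.side y := by
  obtain ⟨h1, -, -, b, h3, h4⟩ := h
  have hu := Cm.side_u D h1
  have hbs : ¬ D.side b := (D.hb _ _ h3).1 hu
  by_contra hy
  exact hbs ((D.hb _ _ h4).2 hy)

theorem SpY.near {x y v u : V} (h : D.SpY y v u) (hxy : D.G.Adj x y) : D.Nr x v u := by
  obtain ⟨h1, -, -, b, h3, h4⟩ := h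
  exact Or.inr (D.e3 hxy h4.symm h3.symm)

theorem SpY.nears {y v u : V} (h : D.SpY y v u) : D.Nr y v u := by
  obtain ⟨h1, -, -, b, h3, h4⟩ := h
  exact Or.inr (D.e23 h4.symm h3.symm)

theorem SpY.not_supp {y v u : V} (h : D.SpY y v u) : y ∉ D.H.support := by
  rintro ⟨a, ha⟩
  have hs := SpY.side D h
  have hc : D.Cm a y := ⟨ha.symm, (D.hb _ _ (D.hH _ _ ha)).1 hs⟩
  have := D.uniq h.1 hc (SpY.nears D h) (Or.inr (D.e03 y))
  exact h.2.2.1 this.2.symm

open Classical in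
/-- the colours of the second class -/
noncomputable def psi (y : V) : Fin D.k :=
  if y ∈ D.H.support then D.f0 y else
    if h : ∃ p : V × V, D.SpY y p.1 p.2 then D.g0 s(h.choose.1, h.choose.2) else D.β

theorem psi_supp {y : V} (h : y ∈ D.H.support) : D.psi y = D.f0 y := by
  unfold psi; rw [if_pos h]

theorem psi_sp {y v u : V} (h : D.SpY y v u) : D.psi y = D.g0 s(v, u) := by
  unfold psi
  have hh : ∃ p : V × V, D.SpY y p.1 p.2 := ⟨(v, u), h⟩
  rw [if_neg (SpY.not_supp D h), dif_pos hh]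
  have := D.uniq hh.choose_spec.1 h.1 (SpY.nears D hh.choose_spec) (SpY.nears D h)
  rw [this.1, this.2]

theorem psi_def {y : V} (h : y ∉ D.H.support) (h' : ∀ v u, ¬ D.SpY y v u) : D.psi y = D.β := by
  unfold psi
  rw [if_neg h, dif_neg]
  rintro ⟨p, hp⟩
  exact h' _ _ hp

/-- the special vertices of the first class -/
def SpX (x v u : V) : Prop := x ∉ D.H.support ∧ ¬ D.G.Adj u x ∧ ∃ y, D.SpY y v u ∧ D.G.Adj x y

theorem SpX.cm {x v u : V} (h : D.SpX x v u) : D.Cm v u := by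
  obtain ⟨-, -, y, hy, -⟩ := h
  exact hy.1

theorem SpX.near {x v u : V} (h : D.SpX x v u) : D.Nr x v u := by
  obtain ⟨-, -, y, hy, hxy⟩ := h
  exact SpY.near D hy hxy

open Classical in
/-- the colours given in advance in the first class -/
noncomputable def gam (x : V) : Option (Fin D.k) :=
  if x ∈ D.H.support then some (D.f0 x) else
    if h : ∃ p : V × V, D.SpX x p.1 p.2 then some (D.f0 h.choose.2) else none

theorem gam_supp {x : V} (h : x ∈ D.H.support) : D.gam x = some (D.f0 x) := by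
  unfold gam; rw [if_pos h]

theorem gam_sp {x v u : V} (h : D.SpX x v u) : D.gam x = some (D.f0 u) := by
  unfold gam
  have hh : ∃ p : V × V, D.SpX x p.1 p.2 := ⟨(v, u), h⟩
  rw [if_neg h.1, dif_pos hh]
  have := D.uniq (SpX.cm D hh.choose_spec) (SpX.cm D h) (SpX.near D hh.choose_spec)
    (SpX.near D h)
  rw [this.2]

theorem gam_none {x : V} (h : x ∉ D.H.support) (h' : ∀ v u, ¬ D.SpX x v u) : D.gam x = none := by
  unfold gam
  rw [if_neg h, dif_neg]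
  rintro ⟨p, hp⟩
  exact h' _ _ hp

/-- the precoloured edges at a component -/
def Qc (x y : V) (t : Fin D.k) (v u : V) : Prop :=
  (x = v ∧ y = u ∧ t = D.g0 s(v, u)) ∨
  (D.f0 u ≠ D.β ∧ D.G.Adj u x ∧ x ≠ v ∧ nb D.G x + 2 = D.k ∧ y = D.m u v x ∧ t = D.f0 u) ∨
  (D.f0 u = D.β ∧ D.G.Adj v y ∧ y ≠ u ∧ nb D.G y + 2 = D.k ∧ x = D.m v u y ∧ t = D.g0 s(v, u))

/-- the precoloured edges -/
def Q (x y : V) (t : Fin D.k) : Prop := ∃ v u, D.Cm v u ∧ D.Qc x y t v u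

theorem Qc.side {x y v u : V} {t : Fin D.k} (h : D.Cm v u) (hq : D.Qc x y t v u) :
    ¬ D.side x ∧ D.G.Adj x y := by
  have hu := Cm.side_u D h
  have hvu := Cm.adj D h
  rcases hq with ⟨rfl, rfl, -⟩ | ⟨-, h2, h3, h4, rfl, -⟩ | ⟨-, h2, h3, h4, rfl, -⟩
  · exact ⟨h.2, hvu⟩
  · exact ⟨(D.hb _ _ h2).1 hu, (D.hm1 u v x hvu.symm h2 h3 h4).1⟩
  · have h5 := (D.hm1 v u y hvu h2 h3 h4).1
    refine ⟨?_, h5.symm⟩
    have hy : D.side y := by
      by_contra hy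
      exact h.2 ((D.hb _ _ h2).2 hy)
    exact (D.hb _ _ h5).1 hy

theorem Qc.near {x x' y v u : V} {t : Fin D.k} (h : D.Cm v u) (hq : D.Qc x' y t v u)
    (hxy : D.G.Adj x y) : D.Nr x v u := by
  have hvu := Cm.adj D h
  rcases hq with ⟨rfl, rfl, -⟩ | ⟨-, h2, h3, h4, rfl, -⟩ | ⟨-, h2, h3, h4, rfl, -⟩
  · exact Or.inr (D.e13 hxy)
  · exact Or.inr (D.e3 hxy (D.hm1 u v x' hvu.symm h2 h3 h4).1.symm h2.symm)
  · exact Or.inl (D.e23 hxy h2.symm)

/-- `Q` at a neighbour of a vertex near a component -/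
theorem Q_near {x x' y v u : V} {t : Fin D.k} (h : D.Cm v u) (hx : D.Nr x v u)
    (hxy : D.G.Adj x y) (hq : D.Q x' y t) : D.Qc x' y t v u := by
  obtain ⟨v', u', h', hq'⟩ := hq
  obtain ⟨rfl, rfl⟩ := D.uniq h h' hx (Qc.near D h' hq' hxy)
  exact hq'

theorem Q_adj {x y : V} {t : Fin D.k} (hq : D.Q x y t) : ¬ D.side x ∧ D.G.Adj x y := by
  obtain ⟨v, u, h, hq⟩ := hq
  exact Qc.side D h hq

theorem Q_near' {x y v u : V} {t : Fin D.k} (h : D.Cm v u) (hx : D.Nr x v u)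
    (hq : D.Q x y t) : D.Qc x y t v u :=
  D.Q_near h hx (D.Q_adj hq).2 hq

/-- near a component of the first kind -/
theorem psi_near1 {x y v u : V} (h : D.Cm v u) (hx : D.Nr x v u) (hxs : ¬ D.side x)
    (hxy : D.G.Adj x y) :
    (y = u ∧ D.psi y = D.f0 u) ∨ (D.SpY y v u ∧ D.psi y = D.g0 s(v, u)) ∨
      (y ≠ u ∧ ¬ D.SpY y v u ∧ D.psi y = D.β) := by
  by_cases hy : y = u
  · subst hy
    exact Or.inl ⟨rfl, D.psi_supp ⟨v, h.1.symm⟩⟩
  by_cases hs : D.SpY y v u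
  · exact Or.inr (Or.inl ⟨hs, D.psi_sp hs⟩)
  refine Or.inr (Or.inr ⟨hy, hs, D.psi_def ?_ ?_⟩)
  · rintro ⟨a, ha⟩
    have hys : D.side y := by
      by_contra hcon
      exact hxs ((D.hb _ _ hxy).2 hcon)
    have hc : D.Cm a y := ⟨ha.symm, (D.hb _ _ (D.hH _ _ ha)).1 hys⟩
    exact hy (D.uniq h hc hx (Or.inr (D.e13 hxy))).2.symm
  · intro v' u' h'
    obtain ⟨rfl, rfl⟩ := D.uniq h h'.1 hx (SpY.near D h' hxy)
    exact hs h'

theorem psi_near2 {x y : V} (hx : ∀ v u, D.Cm v u → D.Nr x v u → D.f0 u = D.β)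
    (hxs : ¬ D.side x) (hxy : D.G.Adj x y) : D.psi y = D.β := by
  by_cases hy : y ∈ D.H.support
  · rw [D.psi_supp hy]
    obtain ⟨a, ha⟩ := hy
    have hys : D.side y := by
      by_contra hcon
      exact hxs ((D.hb _ _ hxy).2 hcon)
    have hc : D.Cm a y := ⟨ha.symm, (D.hb _ _ (D.hH _ _ ha)).1 hys⟩
    exact hx a y hc (Or.inr (D.e13 hxy))
  · refine D.psi_def hy ?_
    intro v u h
    exact h.2.1 (hx v u h.1 (SpY.near D h hxy))

theorem supp_x {x : V} (hxs : ¬ D.side x) (hx : x ∈ D.H.support) {v u : V} (h : D.Cm v u)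
    (hn : D.Nr x v u) : x = v := by
  obtain ⟨a, ha⟩ := hx
  exact (D.uniq h ⟨ha, hxs⟩ hn (Or.inl (D.e03 x))).1.symm

theorem gam_near1 {x v u : V} (h : D.Cm v u) (hx : D.Nr x v u) (hxs : ¬ D.side x) :
    (x = v ∧ D.gam x = some (D.f0 v)) ∨ (x ≠ v ∧ D.G.Adj u x ∧ D.gam x = none) ∨
      (x ≠ v ∧ D.SpX x v u ∧ D.gam x = some (D.f0 u)) ∨
      (x ≠ v ∧ ¬ D.G.Adj u x ∧ (∀ y, D.G.Adj x y → ¬ D.SpY y v u) ∧ D.gam x = none) := by
  by_cases hxv : x = v
  · subst hxv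
    exact Or.inl ⟨rfl, D.gam_supp ⟨u, h.1⟩⟩
  have hns : x ∉ D.H.support := fun hs => hxv (D.supp_x hxs hs h hx)
  by_cases hux : D.G.Adj u x
  · refine Or.inr (Or.inl ⟨hxv, hux, D.gam_none hns ?_⟩)
    intro v' u' h'
    obtain ⟨rfl, rfl⟩ := D.uniq h (SpX.cm D h') hx (SpX.near D h')
    exact h'.2.1 hux
  by_cases hsp : D.SpX x v u
  · exact Or.inr (Or.inr (Or.inl ⟨hxv, hsp, D.gam_sp hsp⟩))
  refine Or.inr (Or.inr (Or.inr ⟨hxv, hux, ?_, D.gam_none hns ?_⟩))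
  · intro y hxy hy
    exact hsp ⟨hns, hux, y, hy, hxy⟩
  · intro v' u' h'
    obtain ⟨rfl, rfl⟩ := D.uniq h (SpX.cm D h') hx (SpX.near D h')
    exact hsp h'

theorem gam_near2 {x : V} (hx : ∀ v u, D.Cm v u → D.Nr x v u → D.f0 u = D.β)
    (hns : x ∉ D.H.support) : D.gam x = none := by
  refine D.gam_none hns ?_
  intro v u h
  have h1 := hx v u (SpX.cm D h) (SpX.near D h)
  obtain ⟨-, -, y, hy, -⟩ := h
  exact hy.2.1 h1

end Dat

end Pool.Agent.V1149.BT
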