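import Mathlib
import Pool.Agent.V1149.BT.Far

set_option autoImplicit false

/-!
# Total colourings of bipartite graphs extending a precoloured distance-7 matching: the main step
-/

namespace Pool.Agent.V1149.BT

open Finset

namespace Dat

variable {V : Type} [Fintype V] (D : Dat V)

theorem Q_ne {x y v u : V} {t : Fin D.k} (h : D.Cm v u) (hq : D.Qc x y t v u) :
    t = D.g0 s(v, u) ∨ t = D.f0 u := by
  rcases hq with ⟨-, -, ht⟩ | ⟨-, -, -, -, -, ht⟩ | ⟨-, -, -, -, -, ht⟩
  · exact Or.inl ht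
  · exact Or.inr ht
  · exact Or.inl ht

open Classical in
theorem cnt1 (x : V) :
    (univ.filter (fun y' => D.G.Adj x y' ∧ ∀ t, ¬ D.Q x y' t)).card ≤ nb D.G x := by
  unfold nb
  apply card_le_card
  intro y hy
  rw [mem_filter] at hy ⊢
  exact ⟨hy.1, hy.2.1⟩

open Classical in
theorem cnt2 {x y : V} {t : Fin D.k} (h : D.Q x y t) :
    (univ.filter (fun y' => D.G.Adj x y' ∧ ∀ t, ¬ D.Q x y' t)).card + 1 ≤ nb D.G x := by
  unfold nb
  apply card_lt_card
  rw [ssubset_iff_of_subset]
  · refine ⟨y, ?_, ?_⟩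
    · rw [mem_filter]; exact ⟨mem_univ _, (D.Q_adj h).2⟩
    · rw [mem_filter]; rintro ⟨-, -, h'⟩; exact h' t h
  · intro y hy
    rw [mem_filter] at hy ⊢
    exact ⟨hy.1, hy.2.1⟩

open Classical in
theorem cnt1' (y : V) :
    (univ.filter (fun x' => D.G.Adj x' y ∧ ∀ t, ¬ D.Q x' y t)).card ≤ nb D.G y := by
  unfold nb
  apply card_le_card
  intro x hx
  rw [mem_filter] at hx ⊢
  exact ⟨hx.1, hx.2.1.symm⟩

open Classical in
theorem cnt2' {x y : V} {t : Fin D.k} (h : D.Q x y t) :
    (univ.filter (fun x' => D.G.Adj x' y ∧ ∀ t, ¬ D.Q x' y t)).card + 1 ≤ nb D.G y := by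
  unfold nb
  apply card_lt_card
  rw [ssubset_iff_of_subset]
  · refine ⟨x, ?_, ?_⟩
    · rw [mem_filter]; exact ⟨mem_univ _, (D.Q_adj h).2.symm⟩
    · rw [mem_filter]; rintro ⟨-, -, h'⟩; exact h' t h
  · intro x hx
    rw [mem_filter] at hx ⊢
    exact ⟨hx.1, hx.2.1.symm⟩

theorem cp {v u : V} (h : D.Cm v u) : D.g0 s(v, u) ≠ D.f0 v := D.hT.inc v u h.1

theorem cq {v u : V} (h : D.Cm v u) : D.g0 s(v, u) ≠ D.f0 u := by
  rw [Sym2.eq_swap]; exact D.hT.inc u v h.1.symm

theorem pq {v u : V} (h : D.Cm v u) : D.f0 v ≠ D.f0 u := D.hT.vert v u h.1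

theorem side_y {x y : V} (hxs : ¬ D.side x) (hxy : D.G.Adj x y) : D.side y := by
  by_contra hcon
  exact hxs ((D.hb _ _ hxy).2 hcon)

open Classical in
theorem hL (x y : V) (hxs : ¬ D.side x) (hxy : D.G.Adj x y) (hnQ : ∀ t, ¬ D.Q x y t) :
    ∃ bad : Finset (Fin D.k), D.psi y ∈ bad ∧
      (∀ g, D.gam x = some g → g ∈ bad) ∧ (∀ y' t, D.Q x y' t → t ∈ bad) ∧
      (∀ x' t, D.Q x' y t → t ∈ bad) ∧
      bad.card + (univ.filter (fun y' => D.G.Adj x y' ∧ ∀ t, ¬ D.Q x y' t)).card ≤ D.k ∧
      bad.card + (univ.filter (fun x' => D.G.Adj x' y ∧ ∀ t, ¬ D.Q x' y t)).card ≤ D.k := by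
  have hkx := D.hk x
  have hky := D.hk y
  have c1x := D.cnt1 x
  have c1y := D.cnt1' y
  by_cases hA : ∃ v u, D.Cm v u ∧ D.Nr x v u
  · obtain ⟨v, u, h, hn⟩ := hA
    have hvu := Cm.adj D h
    by_cases hβ : D.f0 u = D.β
    · have hxx : ∀ v' u', D.Cm v' u' → D.Nr x v' u' → D.f0 u' = D.β := by
        intro v' u' h' hn'
        obtain ⟨rfl, rfl⟩ := D.uniq h h' hn hn'
        exact hβ
      have hψ := D.psi_near2 hxx hxs hxy
      by_cases hxv : x = v
      · have hyu : y ≠ u := by
          intro hyu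
          exact hnQ _ ⟨v, u, h, Or.inl ⟨hxv, hyu, rfl⟩⟩
        have h3 : ({D.β, D.f0 v, D.g0 s(v, u)} : Finset (Fin D.k)).card ≤ 3 := card_le_three
        have c2x := D.cnt2 (x := x) (y := u) (t := D.g0 s(v, u))
          ⟨v, u, h, Or.inl ⟨hxv, rfl, rfl⟩⟩
        refine ⟨{D.β, D.f0 v, D.g0 s(v, u)}, by rw [hψ]; simp, ?_, ?_, ?_, by omega, ?_⟩
        · intro g hg
          rw [D.gam_supp (by rw [hxv]; exact ⟨u, h.1⟩), Option.some.injEq] at hg
          rw [← hg, hxv]; simp
        · intro y' t hq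
          rcases D.Q_near' h hn hq with ⟨-, -, ht⟩ | ⟨h1, -⟩ | ⟨-, h2, h3, h4, h5, ht⟩
          · rw [ht]; simp
          · exact absurd hβ h1
          · rw [ht]; simp
        · intro x' t hq
          rcases D.Q_near h hn hxy hq with ⟨-, -, ht⟩ | ⟨h1, -⟩ | ⟨-, h2, h3, h4, h5, ht⟩
          · rw [ht]; simp
          · exact absurd hβ h1
          · rw [ht]; simp
        · by_cases hf : nb D.G y + 2 = D.k
          · have c2y := D.cnt2' (x := D.m v u y) (y := y) (t := D.g0 s(v, u))
              ⟨v, u, h, Or.inr (Or.inr ⟨hβ, hxv ▸ hxy, hyu, hf, rfl, rfl⟩)⟩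
            omega
          · omega
      · have hns : x ∉ D.H.support := fun hs => hxv (D.supp_x hxs hs h hn)
        have hγ := D.gam_near2 hxx hns
        have h2 : ({D.β, D.g0 s(v, u)} : Finset (Fin D.k)).card ≤ 2 := card_le_two
        refine ⟨{D.β, D.g0 s(v, u)}, by rw [hψ]; simp, ?_, ?_, ?_, by omega, by omega⟩
        · intro g hg
          rw [hγ] at hg
          cases hg
        · intro y' t hq
          rcases D.Q_near' h hn hq with ⟨-, -, ht⟩ | ⟨h1, -⟩ | ⟨-, h2, h3, h4, h5, ht⟩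
          · rw [ht]; simp
          · exact absurd hβ h1
          · rw [ht]; simp
        · intro x' t hq
          rcases D.Q_near h hn hxy hq with ⟨-, -, ht⟩ | ⟨h1, -⟩ | ⟨-, h2, h3, h4, h5, ht⟩
          · rw [ht]; simp
          · exact absurd hβ h1
          · rw [ht]; simp
    · -- components of the first kind
      have hψ := D.psi_near1 h hn hxs hxy
      rcases D.gam_near1 h hn hxs with ⟨hxv, hγ⟩ | ⟨hxv, hux, hγ⟩ | ⟨hxv, hsp, hγ⟩ |
        ⟨hxv, hux, hnsp, hγ⟩
      · -- `x = v`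
        have hyu : y ≠ u := by
          intro hyu
          exact hnQ _ ⟨v, u, h, Or.inl ⟨hxv, hyu, rfl⟩⟩
        have hsy : D.SpY y v u := ⟨h, hβ, hyu, v, hvu.symm, hxv ▸ hxy⟩
        have hψ' := D.psi_sp hsy
        have c2x := D.cnt2 (x := x) (y := u) (t := D.g0 s(v, u))
          ⟨v, u, h, Or.inl ⟨hxv, rfl, rfl⟩⟩
        have hq1 : ∀ y' t, D.Q x y' t → t = D.g0 s(v, u) := by
          intro y' t hq
          rcases D.Q_near' h hn hq with ⟨-, -, ht⟩ | ⟨-, -, h3, -⟩ | ⟨h1, -⟩
          · exact ht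
          · exact absurd hxv h3
          · exact absurd h1 hβ
        by_cases hcov : ∃ x' t, D.Q x' y t
        · obtain ⟨x0, t0, hq0⟩ := hcov
          have c2y := D.cnt2' hq0
          have h3 : ({D.g0 s(v, u), D.f0 v, D.f0 u} : Finset (Fin D.k)).card ≤ 3 := card_le_three
          refine ⟨{D.g0 s(v, u), D.f0 v, D.f0 u}, by rw [hψ']; simp, ?_, ?_, ?_, by omega,
            by omega⟩
          · intro g hg
            rw [hγ, Option.some.injEq] at hg
            rw [← hg]; simp
          · intro y' t hq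
            rw [hq1 y' t hq]; simp
          · intro x' t hq
            rcases D.Q_ne h (D.Q_near h hn hxy hq) with ht | ht <;> rw [ht] <;> simp
        · push Not at hcov
          have h2 : ({D.g0 s(v, u), D.f0 v} : Finset (Fin D.k)).card ≤ 2 := card_le_two
          refine ⟨{D.g0 s(v, u), D.f0 v}, by rw [hψ']; simp, ?_, ?_, ?_, by omega,
            by omega⟩
          · intro g hg
            rw [hγ, Option.some.injEq] at hg
            rw [← hg]; simp
          · intro y' t hq
            rw [hq1 y' t hq]; simp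
          · intro x' t hq
            exact absurd hq (hcov x' t)
      · -- `x` is a neighbour of `u`
        have h2 : ({D.g0 s(v, u), D.f0 u} : Finset (Fin D.k)).card ≤ 2 := card_le_two
        refine ⟨{D.g0 s(v, u), D.f0 u}, ?_, ?_, ?_, ?_, by omega, by omega⟩
        · rcases hψ with ⟨-, hψ⟩ | ⟨-, hψ⟩ | ⟨hyu, hns, -⟩
          · rw [hψ]; simp
          · rw [hψ]; simp
          · exact absurd ⟨h, hβ, hyu, x, hux, hxy⟩ hns
        · intro g hg
          rw [hγ] at hg
          cases hg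
        · intro y' t hq
          rcases D.Q_ne h (D.Q_near' h hn hq) with ht | ht <;> rw [ht] <;> simp
        · intro x' t hq
          rcases D.Q_ne h (D.Q_near h hn hxy hq) with ht | ht <;> rw [ht] <;> simp
      · -- `x` is special
        have hq1 : ∀ y' t, ¬ D.Q x y' t := by
          intro y' t hq
          rcases D.Q_near' h hn hq with ⟨h1, -⟩ | ⟨-, h2, -⟩ | ⟨h1, -⟩
          · exact hxv h1
          · exact hsp.2.1 h2
          · exact absurd h1 hβ
        have hyu : y ≠ u := by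
          intro hyu
          exact hsp.2.1 (hyu ▸ hxy.symm)
        rcases hψ with ⟨hyu', -⟩ | ⟨hsy, hψ⟩ | ⟨-, hns, hψ⟩
        · exact absurd hyu' hyu
        · have h2 : ({D.g0 s(v, u), D.f0 u} : Finset (Fin D.k)).card ≤ 2 := card_le_two
          refine ⟨{D.g0 s(v, u), D.f0 u}, by rw [hψ]; simp, ?_, ?_, ?_, by omega, by omega⟩
          · intro g hg
            rw [hγ, Option.some.injEq] at hg
            rw [← hg]; simp
          · intro y' t hq
            exact absurd hq (hq1 y' t)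
          · intro x' t hq
            rcases D.Q_ne h (D.Q_near h hn hxy hq) with ht | ht <;> rw [ht] <;> simp
        · have h2 : ({D.β, D.f0 u} : Finset (Fin D.k)).card ≤ 2 := card_le_two
          refine ⟨{D.β, D.f0 u}, by rw [hψ]; simp, ?_, ?_, ?_, by omega, by omega⟩
          · intro g hg
            rw [hγ, Option.some.injEq] at hg
            rw [← hg]; simp
          · intro y' t hq
            exact absurd hq (hq1 y' t)
          · intro x' t hq
            exfalso
            have hadj := (D.Q_adj hq).2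
            rcases D.Q_near h hn hxy hq with ⟨-, h1, -⟩ | ⟨-, h2, -, -, -, -⟩ | ⟨h1, -⟩
            · exact hyu h1
            · exact hns ⟨h, hβ, hyu, x', h2, hadj⟩
            · exact hβ h1
      · -- other vertices
        have hq1 : ∀ y' t, ¬ D.Q x y' t := by
          intro y' t hq
          rcases D.Q_near' h hn hq with ⟨h1, -⟩ | ⟨-, h2, -⟩ | ⟨h1, -⟩
          · exact hxv h1
          · exact hux h2
          · exact absurd h1 hβ
        have hyu : y ≠ u := by
          intro hyu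
          exact hux (hyu ▸ hxy.symm)
        have hns := hnsp y hxy
        rcases hψ with ⟨hyu', -⟩ | ⟨hsy, -⟩ | ⟨-, -, hψ⟩
        · exact absurd hyu' hyu
        · exact absurd hsy hns
        · have h2 : ({D.β} : Finset (Fin D.k)).card = 1 := card_singleton _
          refine ⟨{D.β}, by rw [hψ]; simp, ?_, ?_, ?_, by omega, by omega⟩
          · intro g hg
            rw [hγ] at hg
            cases hg
          · intro y' t hq
            exact absurd hq (hq1 y' t)
          · intro x' t hq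
            exfalso
            have hadj := (D.Q_adj hq).2
            rcases D.Q_near h hn hxy hq with ⟨-, h1, -⟩ | ⟨-, h2, -, -, -, -⟩ | ⟨h1, -⟩
            · exact hyu h1
            · exact hns ⟨h, hβ, hyu, x', h2, hadj⟩
            · exact hβ h1
  · push Not at hA
    have hψ := D.psi_near2 (fun v u h hn => absurd hn (hA v u h)) hxs hxy
    have hns : x ∉ D.H.support := by
      rintro ⟨a, ha⟩
      exact hA x a ⟨ha, hxs⟩ (Or.inl (D.e03 x))
    have hγ := D.gam_near2 (fun v u h hn => absurd hn (hA v u h)) hns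
    have h2 : ({D.β} : Finset (Fin D.k)).card = 1 := card_singleton _
    refine ⟨{D.β}, by rw [hψ]; simp, ?_, ?_, ?_, by omega, by omega⟩
    · intro g hg
      rw [hγ] at hg
      cases hg
    · rintro y' t hq
      exfalso
      have hadj := (D.Q_adj hq).2
      obtain ⟨v, u, h, hq⟩ := hq
      exact hA v u h (Qc.near D h hq hadj)
    · rintro x' t ⟨v, u, h, hq⟩
      exfalso
      exact hA v u h (Qc.near D h hq hxy)

open Classical in
theorem hS (x : V) (hxs : ¬ D.side x) (hγ0 : D.gam x = none) : ∃ S : Finset (Fin D.k),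
    (∀ y, D.G.Adj x y → D.psi y ∈ S) ∧ (∀ y t, D.Q x y t → t ∈ S) ∧
      S.card + (univ.filter (fun y => D.G.Adj x y ∧ ∀ t, ¬ D.Q x y t)).card < D.k := by
  have hkx := D.hk x
  have c1x := D.cnt1 x
  by_cases hA : ∃ v u, D.Cm v u ∧ D.Nr x v u
  · obtain ⟨v, u, h, hn⟩ := hA
    have hvu := Cm.adj D h
    by_cases hβ : D.f0 u = D.β
    · have hxx : ∀ v' u', D.Cm v' u' → D.Nr x v' u' → D.f0 u' = D.β := by
        intro v' u' h' hn'
        obtain ⟨rfl, rfl⟩ := D.uniq h h' hn hn'
        exact hβ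
      have hψ : ∀ y, D.G.Adj x y → D.psi y = D.β := fun y hxy => D.psi_near2 hxx hxs hxy
      by_cases hcov : ∃ y t, D.Q x y t
      · obtain ⟨y0, t0, hq0⟩ := hcov
        have c2x := D.cnt2 hq0
        have h2 : ({D.β, D.g0 s(v, u)} : Finset (Fin D.k)).card ≤ 2 := card_le_two
        refine ⟨{D.β, D.g0 s(v, u)}, fun y hxy => by rw [hψ y hxy]; simp, ?_, by omega⟩
        intro y' t hq
        rcases D.Q_near' h hn hq with ⟨-, -, ht⟩ | ⟨h1, -⟩ | ⟨-, h2, h3, h4, h5, ht⟩
        · rw [ht]; simp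
        · exact absurd hβ h1
        · rw [ht]; simp
      · push Not at hcov
        have h2 : ({D.β} : Finset (Fin D.k)).card = 1 := card_singleton _
        refine ⟨{D.β}, fun y hxy => by rw [hψ y hxy]; simp, ?_, by omega⟩
        intro y' t hq
        exact absurd hq (hcov y' t)
    · rcases D.gam_near1 h hn hxs with ⟨hxv, hγ⟩ | ⟨hxv, hux, hγ⟩ | ⟨hxv, hsp, hγ⟩ |
        ⟨hxv, hux, hnsp, hγ⟩
      · rw [hγ] at hγ0; cases hγ0
      · have h2 : ({D.g0 s(v, u), D.f0 u} : Finset (Fin D.k)).card ≤ 2 := card_le_two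
        refine ⟨{D.g0 s(v, u), D.f0 u}, ?_, ?_, ?_⟩
        · intro y hxy
          rcases D.psi_near1 h hn hxs hxy with ⟨-, hψ⟩ | ⟨-, hψ⟩ | ⟨hyu, hns, -⟩
          · rw [hψ]; simp
          · rw [hψ]; simp
          · exact absurd ⟨h, hβ, hyu, x, hux, hxy⟩ hns
        · intro y' t hq
          rcases D.Q_ne h (D.Q_near' h hn hq) with ht | ht <;> rw [ht] <;> simp
        · by_cases hf : nb D.G x + 2 = D.k
          · have c2x := D.cnt2 (x := x) (y := D.m u v x) (t := D.f0 u)
              ⟨v, u, h, Or.inr (Or.inl ⟨hβ, hux, hxv, hf, rfl, rfl⟩)⟩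
            omega
          · omega
      · rw [hγ] at hγ0; cases hγ0
      · have h2 : ({D.β} : Finset (Fin D.k)).card = 1 := card_singleton _
        refine ⟨{D.β}, ?_, ?_, by omega⟩
        · intro y hxy
          rcases D.psi_near1 h hn hxs hxy with ⟨hyu, -⟩ | ⟨hsy, -⟩ | ⟨-, -, hψ⟩
          · exact absurd (hyu ▸ hxy.symm) hux
          · exact absurd hsy (hnsp y hxy)
          · rw [hψ]; simp
        · intro y' t hq
          exfalso
          rcases D.Q_near' h hn hq with ⟨h1, -⟩ | ⟨-, h2, -⟩ | ⟨h1, -⟩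
          · exact hxv h1
          · exact hux h2
          · exact hβ h1
  · push Not at hA
    have hψ : ∀ y, D.G.Adj x y → D.psi y = D.β := fun y hxy =>
      D.psi_near2 (fun v u h hn => absurd hn (hA v u h)) hxs hxy
    have h2 : ({D.β} : Finset (Fin D.k)).card = 1 := card_singleton _
    refine ⟨{D.β}, fun y hxy => by rw [hψ y hxy]; simp, ?_, by omega⟩
    rintro y' t hq
    exfalso
    have hadj := (D.Q_adj hq).2
    obtain ⟨v, u, h, hq⟩ := hq
    exact hA v u h (Qc.near D h hq hadj)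

theorem main : ∃ (c : V → Fin D.k) (d : Sym2 V → Fin D.k), IsTotalColoring D.G c d ∧
    (∀ a ∈ D.H.support, c a = D.f0 a) ∧ ∀ a b, D.H.Adj a b → d s(a, b) = D.g0 s(a, b) := by
  classical
  obtain ⟨c, d, h1, h2, h3, h4⟩ := ext D.G D.side D.hb D.k D.psi D.gam D.Q
    (fun x y t h => D.Q_adj h)
    (by
      intro x y y' t t' hq hq'
      obtain ⟨v, u, h, hq⟩ := hq
      have hadj := (Qc.side D h hq).2
      have hn := Qc.near D h hq hadj
      have hvu := Cm.adj D h
      have hq' := D.Q_near' h hn hq'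
      rcases hq with ⟨a1, a2, a3⟩ | ⟨a1, a2, a3, a4, a5, a6⟩ | ⟨a1, a2, a3, a4, a5, a6⟩ <;>
      rcases hq' with ⟨b1, b2, b3⟩ | ⟨b1, b2, b3, b4, b5, b6⟩ | ⟨b1, b2, b3, b4, b5, b6⟩
      · rw [a2, b2, a3, b3]; simp
      · exact absurd a1 b3
      · exact absurd (b5.symm.trans a1) (D.hm1 v u y' hvu b2 b3 b4).2
      · exact absurd b1 a3
      · rw [a5, b5, a6, b6]; simp
      · exact absurd b1 a1
      · exact absurd (a5.symm.trans b1) (D.hm1 v u y hvu a2 a3 a4).2
      · exact absurd a1 b1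
      · have := D.hm2 v u y y' hvu a2 a3 a4 b2 b3 b4 (a5.symm.trans b5)
        rw [this, a6, b6]; simp)
    (by
      intro x x' y t t' hq hq' hne
      exfalso
      obtain ⟨v, u, h, hq⟩ := hq
      have hadj := (Qc.side D h hq).2
      have hn := Qc.near D h hq hadj
      have hvu := Cm.adj D h
      have hq' := D.Q_near h hn hadj hq'
      rcases hq with ⟨a1, a2, a3⟩ | ⟨a1, a2, a3, a4, a5, a6⟩ | ⟨a1, a2, a3, a4, a5, a6⟩ <;>
      rcases hq' with ⟨b1, b2, b3⟩ | ⟨b1, b2, b3, b4, b5, b6⟩ | ⟨b1, b2, b3, b4, b5, b6⟩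
      · exact hne (a1.trans b1.symm)
      · exact (D.hm1 u v x' hvu.symm b2 b3 b4).2 (b5.symm.trans a2)
      · exact b3 a2
      · exact (D.hm1 u v x hvu.symm a2 a3 a4).2 (a5.symm.trans b2)
      · exact hne (D.hm2 u v x x' hvu.symm a2 a3 a4 b2 b3 b4 (a5.symm.trans b5))
      · exact absurd b1 a1
      · exact a3 b2
      · exact absurd a1 b1
      · exact hne (a5.trans b5.symm))
    (by
      intro x y t hq
      obtain ⟨v, u, h, hq⟩ := hq
      obtain ⟨hxs, hadj⟩ := Qc.side D h hq
      have hn := Qc.near D h hq hadj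
      have hvu := Cm.adj D h
      rcases hq with ⟨a1, a2, a3⟩ | ⟨a1, a2, a3, a4, a5, a6⟩ | ⟨a1, a2, a3, a4, a5, a6⟩
      · rw [a3, a2, D.psi_supp ⟨v, h.1.symm⟩]
        exact D.cq h
      · have hy := D.hm1 u v x hvu.symm a2 a3 a4
        rw [← a5] at hy
        rw [a6, D.psi_sp ⟨h, a1, hy.2, x, a2, hy.1⟩]
        exact (D.cq h).symm
      · have hxx : ∀ v' u', D.Cm v' u' → D.Nr x v' u' → D.f0 u' = D.β := by
          intro v' u' h' hn'
          obtain ⟨rfl, rfl⟩ := D.uniq h h' hn hn'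
          exact a1
        rw [a6, D.psi_near2 hxx hxs hadj, ← a1]
        exact D.cq h)
    (by
      intro x y t hq
      obtain ⟨v, u, h, hq⟩ := hq
      obtain ⟨hxs, hadj⟩ := Qc.side D h hq
      have hn := Qc.near D h hq hadj
      have hvu := Cm.adj D h
      rcases hq with ⟨a1, a2, a3⟩ | ⟨a1, a2, a3, a4, a5, a6⟩ | ⟨a1, a2, a3, a4, a5, a6⟩
      · rw [a3, a1, D.gam_supp ⟨u, h.1⟩]
        intro hcon
        rw [Option.some.injEq] at hcon
        exact D.cp h hcon.symm
      · rcases D.gam_near1 h hn hxs with ⟨b1, -⟩ | ⟨-, -, hγ⟩ | ⟨-, hsp, -⟩ | ⟨-, hux, -⟩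
        · exact absurd b1 a3
        · rw [hγ]; simp
        · exact absurd a2 hsp.2.1
        · exact absurd a2 hux
      · have hxx : ∀ v' u', D.Cm v' u' → D.Nr x v' u' → D.f0 u' = D.β := by
          intro v' u' h' hn'
          obtain ⟨rfl, rfl⟩ := D.uniq h h' hn hn'
          exact a1
        have hxv : x ≠ v := by
          rw [a5]
          exact (D.hm1 v u y hvu a2 a3 a4).2
        have hns : x ∉ D.H.support := fun hs => hxv (D.supp_x hxs hs h hn)
        rw [D.gam_near2 hxx hns]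
        simp)
    (by
      intro x y hxs hxy hcon
      by_cases hA : ∃ v u, D.Cm v u ∧ D.Nr x v u
      · obtain ⟨v, u, h, hn⟩ := hA
        have hvu := Cm.adj D h
        by_cases hβ : D.f0 u = D.β
        · have hxx : ∀ v' u', D.Cm v' u' → D.Nr x v' u' → D.f0 u' = D.β := by
            intro v' u' h' hn'
            obtain ⟨rfl, rfl⟩ := D.uniq h h' hn hn'
            exact hβ
          rw [D.psi_near2 hxx hxs hxy] at hcon
          by_cases hxv : x = v
          · rw [hxv, D.gam_supp ⟨u, h.1⟩, Option.some.injEq, ← hβ] at hcon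
            exact D.pq h hcon
          · have hns : x ∉ D.H.support := fun hs => hxv (D.supp_x hxs hs h hn)
            rw [D.gam_near2 hxx hns] at hcon
            cases hcon
        · rcases D.gam_near1 h hn hxs with ⟨hxv, hγ⟩ | ⟨-, -, hγ⟩ | ⟨-, hsp, hγ⟩ | ⟨-, -, -, hγ⟩
          · rw [hγ, Option.some.injEq] at hcon
            rcases D.psi_near1 h hn hxs hxy with ⟨-, hψ⟩ | ⟨-, hψ⟩ | ⟨hyu, hns, -⟩
            · rw [hψ] at hcon
              exact D.pq h hcon
            · rw [hψ] at hcon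
              exact D.cp h hcon.symm
            · exact hns ⟨h, hβ, hyu, v, hvu.symm, hxv ▸ hxy⟩
          · rw [hγ] at hcon; cases hcon
          · rw [hγ, Option.some.injEq] at hcon
            rcases D.psi_near1 h hn hxs hxy with ⟨hyu, -⟩ | ⟨-, hψ⟩ | ⟨-, -, hψ⟩
            · exact hsp.2.1 (hyu ▸ hxy.symm)
            · rw [hψ] at hcon
              exact D.cq h hcon.symm
            · rw [hψ] at hcon
              exact hβ hcon
          · rw [hγ] at hcon; cases hcon
      · push Not at hA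
        have hns : x ∉ D.H.support := by
          rintro ⟨a, ha⟩
          exact hA x a ⟨ha, hxs⟩ (Or.inl (D.e03 x))
        rw [D.gam_near2 (fun v u h hn => absurd hn (hA v u h)) hns] at hcon
        cases hcon)
    (by
      intro x y hxs hxy hnQ
      exact D.hL x y hxs hxy hnQ)
    (by
      intro x hxs hγ
      exact D.hS x hxs hγ)
  refine ⟨c, d, h1, ?_, ?_⟩
  · intro a ha
    by_cases hs : D.side a
    · rw [h2 a hs, D.psi_supp ha]
    · exact h3 a _ hs (D.gam_supp ha)
  · intro a b hab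
    by_cases hs : D.side a
    · have hbs : ¬ D.side b := (D.hb _ _ (D.hH _ _ hab)).1 hs
      have := h4 b a (D.g0 s(b, a)) ⟨b, a, ⟨hab.symm, hbs⟩, Or.inl ⟨rfl, rfl, rfl⟩⟩
      rw [Sym2.eq_swap, this]
    · exact h4 a b _ ⟨a, b, ⟨hab, hs⟩, Or.inl ⟨rfl, rfl, rfl⟩⟩

end Dat

end Pool.Agent.V1149.BT
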