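import Mathlib
import Pool.Agent.V1149.BT.Far2

set_option autoImplicit false

/-!
# Distance-7 matchings in bipartite graphs: the final assembly
-/

namespace Pool.Agent.V1149.BT

open Finset

open Classical in
theorem sdr {V : Type} [Fintype V] (G : SimpleGraph V) (k : ℕ) (hk : ∀ v, nb G v + 2 ≤ k)
    (a a' : V) (haa' : G.Adj a a') :
    ∃ m : V → V, (∀ z, G.Adj a z → z ≠ a' → nb G z + 2 = k → G.Adj z (m z) ∧ m z ≠ a) ∧
      ∀ z z', G.Adj a z → z ≠ a' → nb G z + 2 = k → G.Adj a z' → z' ≠ a' → nb G z' + 2 = k →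
        m z = m z' → z = z' := by
  set S : Finset V := univ.filter (fun z => G.Adj a z ∧ z ≠ a' ∧ nb G z + 2 = k) with hS
  have hScard : S.card + 3 ≤ k := by
    have h1 : S ⊆ (univ.filter (fun w => G.Adj a w)).erase a' := by
      intro z hz
      rw [hS, mem_filter] at hz
      rw [mem_erase, mem_filter]
      exact ⟨hz.2.2.1, mem_univ _, hz.2.1⟩
    have h2 := card_le_card h1
    have h3 : a' ∈ univ.filter (fun w => G.Adj a w) := by
      rw [mem_filter]; exact ⟨mem_univ _, haa'⟩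
    rw [card_erase_of_mem h3] at h2
    have h4 : 0 < (univ.filter (fun w => G.Adj a w)).card := card_pos.2 ⟨_, h3⟩
    have h5 := hk a
    unfold nb at h5
    omega
  let T : {z // z ∈ S} → Finset V := fun z => (univ.filter (fun w => G.Adj z.1 w)).erase a
  have hTcard : ∀ z : {z // z ∈ S}, (T z).card + 3 = k := by
    rintro ⟨z, hz⟩
    rw [hS, mem_filter] at hz
    obtain ⟨-, h1, h2, h3⟩ := hz
    have h4 : a ∈ univ.filter (fun w => G.Adj z w) := by
      rw [mem_filter]; exact ⟨mem_univ _, h1.symm⟩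
    have h5 : 0 < (univ.filter (fun w => G.Adj z w)).card := card_pos.2 ⟨_, h4⟩
    show ((univ.filter (fun w => G.Adj z w)).erase a).card + 3 = k
    rw [card_erase_of_mem h4]
    unfold nb at h3
    omega
  have hall : ∀ s : Finset {z // z ∈ S}, s.card ≤ (s.biUnion T).card := by
    intro s
    rcases s.eq_empty_or_nonempty with rfl | ⟨z, hz⟩
    · simp
    · have h1 : s.card ≤ S.card := by
        have := card_le_univ s
        rwa [Fintype.card_coe] at this
      have h2 : (T z).card ≤ (s.biUnion T).card := card_le_card (subset_biUnion_of_mem T hz)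
      have h3 := hTcard z
      omega
  obtain ⟨f, hf1, hf2⟩ := (Finset.all_card_le_biUnion_card_iff_exists_injective T).1 hall
  refine ⟨fun z => if h : z ∈ S then f ⟨z, h⟩ else a, ?_, ?_⟩
  · intro z h1 h2 h3
    have hz : z ∈ S := by rw [hS, mem_filter]; exact ⟨mem_univ _, h1, h2, h3⟩
    simp only [dif_pos hz]
    have := hf2 ⟨z, hz⟩
    rw [mem_erase, mem_filter] at this
    exact ⟨this.2.2, this.1⟩
  · intro z z' h1 h2 h3 h1' h2' h3' heq
    have hz : z ∈ S := by rw [hS, mem_filter]; exact ⟨mem_univ _, h1, h2, h3⟩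
    have hz' : z' ∈ S := by rw [hS, mem_filter]; exact ⟨mem_univ _, h1', h2', h3'⟩
    simp only [dif_pos hz, dif_pos hz'] at heq
    exact congrArg Subtype.val (hf1 heq)

theorem far {V : Type} [Fintype V] (G H : SimpleGraph V) (side : V → Prop)
    (hb : ∀ a b, G.Adj a b → (side a ↔ ¬ side b)) (k : ℕ) (hk : ∀ v, nb G v + 2 ≤ k)
    (hH : ∀ a b, H.Adj a b → G.Adj a b)
    (hm : ∀ a b c, H.Adj a b → H.Adj a c → b = c)
    (hd : ∀ a ∈ H.support, ∀ b ∈ H.support, a ≠ b → ¬ H.Adj a b → 7 ≤ G.edist a b)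
    (f0 : V → Fin k) (g0 : Sym2 V → Fin k) (hT : IsTotalColoring H f0 g0) :
    ∃ (c : V → Fin k) (d : Sym2 V → Fin k), IsTotalColoring G c d ∧
      (∀ a ∈ H.support, c a = f0 a) ∧ ∀ a b, H.Adj a b → d s(a, b) = g0 s(a, b) := by
  classical
  by_cases hne : Nonempty V
  · obtain ⟨v0⟩ := hne
    have h1 : ∀ a a', ∃ m : V → V, G.Adj a a' →
        (∀ z, G.Adj a z → z ≠ a' → nb G z + 2 = k → G.Adj z (m z) ∧ m z ≠ a) ∧
        ∀ z z', G.Adj a z → z ≠ a' → nb G z + 2 = k → G.Adj a z' → z' ≠ a' → nb G z' + 2 = k →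
          m z = m z' → z = z' := by
      intro a a'
      by_cases h : G.Adj a a'
      · obtain ⟨m, hm⟩ := sdr G k hk a a' h
        exact ⟨m, fun _ => hm⟩
      · exact ⟨id, fun h' => absurd h' h⟩
    choose m hm' using h1
    let D : Dat V := {
      G := G, H := H, side := side, k := k, f0 := f0, g0 := g0, β := f0 v0, m := m
      hb := hb, hH := hH, hm := hm, hd := hd, hT := hT, hk := hk
      hm1 := fun a a' z h => (hm' a a' h).1 z
      hm2 := fun a a' z z' h => (hm' a a' h).2 z z' }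
    exact D.main
  · refine ⟨f0, g0, ⟨?_, ?_, ?_⟩, fun _ _ => rfl, fun _ _ _ => rfl⟩
    · intro u; exact absurd ⟨u⟩ hne
    · intro u; exact absurd ⟨u⟩ hne
    · intro u; exact absurd ⟨u⟩ hne

end Pool.Agent.V1149.BT
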